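import Pool.Agent.Lib.MP_e029a2_pr.SInd

/-!
# The frog model on `ℤ^D` with death: definitions

Before every step a frog is killed with probability `w`; otherwise it makes a step of the simple random walk.
A run is the list of the steps of a frog before it is killed.
-/

set_option autoImplicit false

namespace FDr.SH

open MeasureTheory ProbabilityTheory
open scoped ENNReal

/-- the directions -/
abbrev HD (D : ℕ) : Type := Fin D × Bool

/-- the sites of `ℤ^D` -/
abbrev HV (D : ℕ) : Type := Fin D → ℤ

/-- runs -/
abbrev HRun (D : ℕ) : Type := List (HD D)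

instance (D : ℕ) : MeasurableSpace (HRun D) := ⊤
instance (D : ℕ) : DiscreteMeasurableSpace (HRun D) := ⟨fun _ => trivial⟩

/-- the vector of a step -/
def hvec {D : ℕ} (a : HD D) : HV D := Pi.single a.1 (sg a.2)

/-- the displacement -/
def hdsp {D : ℕ} (l : HRun D) : HV D := (l.map hvec).sum

/-- the sites which are visited, relative to the starting point -/
def hvis {D : ℕ} (l : HRun D) : Set (HV D) := {v | ∃ i, i ≤ l.length ∧ hdsp (l.take i) = v}

/-- the probability of a run -/
noncomputable def hW (w : ℝ) (D : ℕ) (l : HRun D) : ℝ := w * ((1 - w) / (2 * D)) ^ l.length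

/-- the law of a run -/
noncomputable def hLaw (w : Set.Ioo (0 : ℝ) 1) (D : ℕ) : Measure (HRun D) :=
  Measure.sum fun l => ENNReal.ofReal (hW w D l) • Measure.dirac l

/-- configurations of runs -/
abbrev HConf (D : ℕ) : Type := HV D → HRun D

/-- the law of the configurations -/
noncomputable def HQ (w : Set.Ioo (0 : ℝ) 1) (D : ℕ) : Measure (HConf D) := Measure.infinitePi fun _ => hLaw w D

/-- the frogs in `T` which are activated if the frogs in `U ∩ T` are active at the beginning and there are no frogs
outside `T` -/
inductive Cl {D : ℕ} (T U : Set (HV D)) (c : HConf D) : HV D → Prop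
  | act (x : HV D) : x ∈ T → x ∈ U → Cl T U c x
  | wake (x y : HV D) : Cl T U c x → y ∈ T → y - x ∈ hvis (c x) → Cl T U c y

/-- the set of these frogs -/
def cl {D : ℕ} (T U : Set (HV D)) (c : HConf D) : Set (HV D) := {y | Cl T U c y}

/-- the probability that infinitely many frogs are activated, if the frog `0` is active at the beginning -/
noncomputable def theta (w : Set.Ioo (0 : ℝ) 1) (D : ℕ) : ℝ≥0∞ := HQ w D {c | (cl Set.univ {0} c).Infinite}

/-- the sites visited by the frog `x` -/
def rch {D : ℕ} (x : HV D) (l : HRun D) : Set (HV D) := {y | y - x ∈ hvis l}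

theorem hLaw_one (w : Set.Ioo (0 : ℝ) 1) (D : ℕ) (l : HRun D) : hLaw w D {l} = ENNReal.ofReal (hW w D l) := by
  rw [hLaw, Measure.sum_apply _ (measurableSet_singleton _), tsum_eq_single l]
  · rw [Measure.smul_apply, Measure.dirac_apply_of_mem (Set.mem_singleton _), smul_eq_mul, mul_one]
  · intro b hb
    rw [Measure.smul_apply, Measure.dirac_apply' _ (measurableSet_singleton _), Set.indicator_of_notMem, smul_zero]
    exact fun h => hb (Set.mem_singleton_iff.1 h)

theorem lintegral_hLaw (w : Set.Ioo (0 : ℝ) 1) (D : ℕ) (f : HRun D → ℝ≥0∞) :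
    ∫⁻ l, f l ∂hLaw w D = ∑' l, ENNReal.ofReal (hW w D l) * f l := by
  rw [lintegral_countable']
  refine tsum_congr fun l => ?_
  rw [hLaw_one, mul_comm]

end FDr.SH
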