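import Pool.Agent.Lib.MP_e029a2_pr.SH.Def

/-!
# Deterministic facts on the clusters (job DT)

All by induction on `Cl`.
* `cl_rec`: `⊇`: `x` by `act`; if `y ∈ cl (T \ {x}) (U ∪ rch x (c x)) c`: `act y` with `y ∈ U` by `act`, with `y ∈ rch x (c x)` by `wake x y`.
  `⊆`: `act y`: `y = x` or `act`; `wake z y`: `y = x`, or `z = x` (then `y ∈ rch x (c x)`, `act`), or `z ∈ cl (T \ {x}) ..` and `wake`.
* `cl_congr`: `Cl T U c y` uses only `c x` with `x ∈ T`.
* `cl_iUnion`: a derivation of `Cl T U c y` is finite, so it lives in one `T k` (induction; `T` is monotone).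
* `cl_shift`: the map `x ↦ z + x` transports derivations, `(z + y) - (z + x) = y - x`.
* `rch_append`: `take i (l ++ [a])` is `take i l` for `i ≤ |l|`, `l ++ [a]` for `i = |l| + 1`.
-/

set_option autoImplicit false

namespace FDr.SH

variable {D : ℕ}

theorem cl_subset (T U : Set (HV D)) (c : HConf D) : cl T U c ⊆ T := by
  intro y hy
  cases hy with
  | act x h1 h2 => exact h1
  | wake x y h1 h2 h3 => exact h2

theorem cl_mono {T T' U U' : Set (HV D)} (hT : T ⊆ T') (hU : U ⊆ U') (c : HConf D) : cl T U c ⊆ cl T' U' c := by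
  intro y hy
  have hy' : Cl T U c y := hy
  show Cl T' U' c y
  induction hy' with
  | act x h1 h2 => exact Cl.act x (hT h1) (hU h2)
  | wake x y h1 h2 h3 ih => exact Cl.wake x y (ih h1) (hT h2) h3

theorem cl_eq_empty {T U : Set (HV D)} (h : ∀ x ∈ T, x ∉ U) (c : HConf D) : cl T U c = ∅ := by
  rw [Set.eq_empty_iff_forall_notMem]
  intro y hy
  have hy' : Cl T U c y := hy
  induction hy' with
  | act x h1 h2 => exact h x h1 h2
  | wake x y h1 h2 h3 ih => exact ih h1

/-- frogs outside `T` play no role in `U` -/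
theorem cl_insert_of_disj {T U : Set (HV D)} {z : HV D} (h : ∀ x ∈ T, x ∉ U) (c : HConf D) :
    cl T (insert z U) c = cl T {z} c := by
  refine Set.Subset.antisymm ?_ (cl_mono subset_rfl (Set.singleton_subset_iff.2 (Set.mem_insert z U)) c)
  intro y hy
  have hy' : Cl T (insert z U) c y := hy
  show Cl T {z} c y
  clear hy
  induction hy' with
  | act x h1 h2 =>
    refine Cl.act x h1 ?_
    rcases h2 with h2 | h2
    · exact h2
    · exact absurd h2 (h x h1)
  | wake x y h1 h2 h3 ih => exact Cl.wake x y ih h2 h3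

theorem cl_rec {T U : Set (HV D)} {x : HV D} (hx : x ∈ T) (hU : x ∈ U) (c : HConf D) :
    cl T U c = insert x (cl (T \ {x}) (U ∪ rch x (c x)) c) := by
  have hxx : Cl T U c x := Cl.act x hx hU
  ext y
  constructor
  · intro hy
    have hy' : Cl T U c y := hy
    clear hy
    induction hy' with
    | act y h1 h2 =>
      by_cases hyx : y = x
      · exact Or.inl hyx
      · exact Or.inr (Cl.act y ⟨h1, hyx⟩ (Or.inl h2))
    | wake z y h1 h2 h3 ih =>
      by_cases hyx : y = x
      · exact Or.inl hyx
      · right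
        rcases ih with ih | ih
        · refine Cl.act y ⟨h2, hyx⟩ (Or.inr ?_)
          have h4 : y - x ∈ hvis (c x) := by
            rw [← ih]
            exact h3
          exact h4
        · exact Cl.wake z y ih ⟨h2, hyx⟩ h3
  · rintro (rfl | hy)
    · exact hxx
    · have hy' : Cl (T \ {x}) (U ∪ rch x (c x)) c y := hy
      show Cl T U c y
      clear hy
      induction hy' with
      | act y h1 h2 =>
        rcases h2 with h2 | h2
        · exact Cl.act y h1.1 h2
        · exact Cl.wake x y hxx h1.1 h2
      | wake z y h1 h2 h3 ih => exact Cl.wake z y ih h2.1 h3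

private theorem det_congr {T U : Set (HV D)} {c c' : HConf D} (h : ∀ x ∈ T, c x = c' x) {y : HV D}
    (hy : Cl T U c y) : Cl T U c' y := by
  induction hy with
  | act x h1 h2 => exact Cl.act x h1 h2
  | wake x y h1 h2 h3 ih =>
    refine Cl.wake x y ih h2 ?_
    rw [← h x (cl_subset T U c h1)]
    exact h3

theorem cl_congr {T U : Set (HV D)} {c c' : HConf D} (h : ∀ x ∈ T, c x = c' x) : cl T U c = cl T U c' := by
  ext y
  exact ⟨fun hy => det_congr h hy, fun hy => det_congr (fun x hx => (h x hx).symm) hy⟩

theorem cl_dep (T U : Set (HV D)) : Dep T (fun c : HConf D => cl T U c) := by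
  intro c c' h
  exact cl_congr h

theorem cl_iUnion (T : ℕ → Set (HV D)) (hT : Monotone T) (U : Set (HV D)) (c : HConf D) :
    cl (⋃ k, T k) U c = ⋃ k, cl (T k) U c := by
  refine Set.Subset.antisymm ?_ (Set.iUnion_subset fun k =>
    cl_mono (Set.subset_iUnion T k) subset_rfl c)
  intro y hy
  have hy' : Cl (⋃ k, T k) U c y := hy
  clear hy
  induction hy' with
  | act x h1 h2 =>
    obtain ⟨k, hk⟩ := Set.mem_iUnion.1 h1
    exact Set.mem_iUnion.2 ⟨k, Cl.act x hk h2⟩
  | wake x y h1 h2 h3 ih =>
    obtain ⟨k, hk⟩ := Set.mem_iUnion.1 h2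
    obtain ⟨j, hj⟩ := Set.mem_iUnion.1 ih
    refine Set.mem_iUnion.2 ⟨max k j, ?_⟩
    exact Cl.wake x y (cl_mono (hT (le_max_right k j)) subset_rfl c hj) (hT (le_max_left k j) hk) h3

private theorem det_shift (z : HV D) {T U : Set (HV D)} {c : HConf D} {y : HV D}
    (hy : Cl T U (fun x => c (z + x)) y) :
    Cl ((fun x => z + x) '' T) ((fun x => z + x) '' U) c (z + y) := by
  induction hy with
  | act x h1 h2 => exact Cl.act (z + x) ⟨x, h1, rfl⟩ ⟨x, h2, rfl⟩
  | wake x y h1 h2 h3 ih =>
    refine Cl.wake (z + x) (z + y) ih ⟨y, h2, rfl⟩ ?_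
    rw [add_sub_add_left_eq_sub]
    exact h3

private theorem det_shift' (z : HV D) {T U : Set (HV D)} {c : HConf D} {y : HV D}
    (hy : Cl ((fun x => z + x) '' T) ((fun x => z + x) '' U) c y) :
    Cl T U (fun x => c (z + x)) (y - z) := by
  induction hy with
  | act x h1 h2 =>
    obtain ⟨x', h1', h1e⟩ := h1
    obtain ⟨x'', h2', h2e⟩ := h2
    have e1 : z + x' = x := h1e
    have e2 : z + x'' = x := h2e
    have e : x' = x'' := by
      rw [← e1] at e2
      exact (add_left_cancel e2).symm
    rw [← e1, add_sub_cancel_left]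
    exact Cl.act x' h1' (by rw [e]; exact h2')
  | wake x y h1 h2 h3 ih =>
    obtain ⟨y', h2', h2e⟩ := h2
    have e2 : z + y' = y := h2e
    rw [← e2, add_sub_cancel_left]
    refine Cl.wake (x - z) y' ih h2' ?_
    show y' - (x - z) ∈ hvis (c (z + (x - z)))
    have e3 : z + (x - z) = x := by abel
    have e4 : y' - (x - z) = y - x := by rw [← e2]; abel
    rw [e3, e4]
    exact h3

theorem cl_shift (z : HV D) (T U : Set (HV D)) (c : HConf D) :
    cl ((fun x => z + x) '' T) ((fun x => z + x) '' U) c = (fun x => z + x) '' cl T U (fun x => c (z + x)) := by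
  ext y
  constructor
  · intro hy
    refine ⟨y - z, det_shift' z hy, ?_⟩
    show z + (y - z) = y
    abel
  · rintro ⟨y', hy', rfl⟩
    exact det_shift z hy'

theorem rch_append (x : HV D) (l : HRun D) (a : HD D) : rch x (l ++ [a]) = insert (x + hdsp (l ++ [a])) (rch x l) := by
  ext y
  constructor
  · rintro ⟨i, hi, h⟩
    by_cases h1 : i ≤ l.length
    · right
      refine ⟨i, h1, ?_⟩
      rw [List.take_append_of_le_length h1] at h
      exact h
    · left
      rw [List.length_append, List.length_singleton] at hi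
      have h2 : i = l.length + 1 := by omega
      rw [h2, List.take_of_length_le (by rw [List.length_append, List.length_singleton])] at h
      rw [h]
      abel
  · rintro (h | ⟨i, hi, h⟩)
    · refine ⟨l.length + 1, ?_, ?_⟩
      · rw [List.length_append, List.length_singleton]
      · rw [List.take_of_length_le (by rw [List.length_append, List.length_singleton]), h]
        abel
    · refine ⟨i, ?_, ?_⟩
      · rw [List.length_append, List.length_singleton]
        omega
      · rw [List.take_append_of_le_length hi]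
        exact h

end FDr.SH
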