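import Pool.Agent.Lib.MP_e029a2_pr.SH.Main

/-!
# The infinite cluster (job KA)

`T k` = the box `{x | ∀ i, |x i| ≤ k}` (a `Finset`, for instance `Fintype.piFinset fun _ => Finset.Icc (-k) k`), monotone with union `univ`.
* `meas_cl`: `{c | Cl univ U c y} = ⋃ k, {c | Cl (T k) U c y}` (`cl_iUnion`), measurable by `cl_dep` and `Dep.measurableSet` (`T k` finite).
* `EE_le`: `EE w F (T k) {0} → ` : for antitone `F`, by monotone convergence; here we need only:
* `kap w h := ∫ c, KX h (cl univ {0} c) ∂HQ`, `KX h C = if C.Finite then exp (-(h C.ncard)) else 0`, is `≤ EE w (X h) T {z}` for every finite `T`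
  and `z`: by translation (`cl_shift`, the law `HQ` is invariant under `c ↦ fun x => c (z + x)`: `FDr.TR.lintegral_reindex` of file TB with the injective map
  `x ↦ z + x`, or `MeasureTheory.Measure.map_infinitePi_infinitePi_of_inj`) the right side is the mean of `exp(-h ncard (cl (T - z) {0} c))`, and
  `cl (T-z) {0} c ⊆ cl univ {0} c` (`cl_mono`), so pointwise `KX h (cl univ {0} c) ≤ exp(-h ncard (cl (T-z) {0} c))`.
* `kap_tendsto`: if `theta w D = 0`, then almost surely the cluster is finite and `KX h C → 1` for `h → 0+`; dominated convergence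
  (`tendsto_integral_filter_of_dominated_convergence`, `|KX| ≤ 1`; the filter `𝓝[>] 0` is countably generated).
* `tail_le`: `{c | m ≤ encard (cl univ {0} c)} = ⋃ k, {c | m ≤ ncard (cl (T k) {0} c)}` increasing in `k` (a finite subset with `m` elements of the union lies in
  one `cl (T k) {0} c`), so if all the finite probabilities are `≤ a` so is the limit (`measure_iUnion_eq_iSup` / `Monotone.measure_iUnion`).
-/

set_option autoImplicit false

namespace FDr.SH

open MeasureTheory ProbabilityTheory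
open scoped ENNReal Topology

variable {D : ℕ} [NeZero D]

/-- boxes -/
private noncomputable def bx (D : ℕ) (k : ℕ) : Finset (HV D) := Fintype.piFinset fun _ => Finset.Icc (-(k : ℤ)) k

private theorem mem_bx {k : ℕ} {x : HV D} : x ∈ bx D k ↔ ∀ i, |x i| ≤ k := by
  unfold bx
  rw [Fintype.mem_piFinset]
  refine forall_congr' fun i => ?_
  rw [Finset.mem_Icc, abs_le]

private theorem bx_mono : Monotone fun k => (↑(bx D k) : Set (HV D)) := by
  intro a b hab x hx
  have hx' : x ∈ bx D a := hx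
  have h1 : x ∈ bx D b := by
    rw [mem_bx] at hx' ⊢
    intro i
    have h2 : (a : ℤ) ≤ b := by exact_mod_cast hab
    exact (hx' i).trans h2
  exact h1

private theorem exists_bx (x : HV D) : ∃ k, x ∈ bx D k := by
  refine ⟨∑ i, (x i).natAbs, ?_⟩
  rw [mem_bx]
  intro i
  have h1 : (x i).natAbs ≤ ∑ i, (x i).natAbs :=
    Finset.single_le_sum (f := fun i => (x i).natAbs) (fun _ _ => Nat.zero_le _) (Finset.mem_univ i)
  have h2 : |x i| = ((x i).natAbs : ℤ) := Int.abs_eq_natAbs _
  rw [h2]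
  exact_mod_cast h1

private theorem bx_iUnion : (⋃ k, (↑(bx D k) : Set (HV D))) = Set.univ := by
  refine Set.eq_univ_of_forall fun x => ?_
  obtain ⟨k, hk⟩ := exists_bx x
  exact Set.mem_iUnion.2 ⟨k, hk⟩

private theorem meas_fin {T : Set (HV D)} (hT : T.Finite) (U : Set (HV D)) (P : Set (HV D) → Prop) :
    MeasurableSet {c : HConf D | P (cl T U c)} :=
  Dep.measurableSet hT ((cl_dep T U).comp P)

theorem meas_cl (T U : Set (HV D)) (y : HV D) : MeasurableSet {c : HConf D | Cl T U c y} := by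
  have h1 : (⋃ k, (T ∩ ↑(bx D k))) = T := by
    rw [← Set.inter_iUnion, bx_iUnion, Set.inter_univ]
  have h2 : Monotone fun k => T ∩ (↑(bx D k) : Set (HV D)) := fun a b hab =>
    Set.inter_subset_inter_right _ (bx_mono hab)
  have h3 : {c : HConf D | Cl T U c y} = ⋃ k, {c : HConf D | y ∈ cl (T ∩ ↑(bx D k)) U c} := by
    ext c
    have h4 := cl_iUnion (fun k => T ∩ (↑(bx D k) : Set (HV D))) h2 U c
    rw [h1] at h4
    rw [Set.mem_iUnion]
    have h5 : Cl T U c y ↔ y ∈ cl T U c := Iff.rfl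
    show Cl T U c y ↔ ∃ k, y ∈ cl (T ∩ ↑(bx D k)) U c
    rw [h5, h4, Set.mem_iUnion]
  rw [h3]
  refine MeasurableSet.iUnion fun k => ?_
  exact meas_fin (Set.Finite.subset (Finset.finite_toSet (bx D k)) Set.inter_subset_right) U fun s => y ∈ s

private theorem cl_univ (c : HConf D) : cl Set.univ {0} c = ⋃ k, cl (↑(bx D k)) {0} c := by
  rw [← cl_iUnion _ bx_mono, bx_iUnion]

private theorem cl_fin (T : Finset (HV D)) (U : Set (HV D)) (c : HConf D) : (cl (↑T) U c).Finite :=
  Set.Finite.subset (Finset.finite_toSet T) (cl_subset _ _ _)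

/-- the number of activated frogs is at least `m` -/
private theorem tail_set (m : ℕ) : {c : HConf D | (m : ℕ∞) ≤ (cl Set.univ {0} c).encard} =
    ⋃ k, {c : HConf D | m ≤ (cl (↑(bx D k)) {0} c).ncard} := by
  ext c
  rw [Set.mem_iUnion]
  constructor
  · intro h
    have h0 : (m : ℕ∞) ≤ (cl Set.univ {0} c).encard := h
    obtain ⟨S, hS, hm⟩ := Set.exists_subset_encard_eq h0
    have hfin : S.Finite := Set.finite_of_encard_eq_coe hm
    rw [cl_univ] at hS
    have hmono : Monotone fun k => cl (↑(bx D k)) {0} c := fun a b hab => cl_mono (bx_mono hab) le_rfl c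
    have h1 : ∃ k, S ⊆ cl (↑(bx D k)) {0} c := by
      have h2 : ∀ x ∈ S, ∃ k, x ∈ cl (↑(bx D k)) {0} c := fun x hx => Set.mem_iUnion.1 (hS hx)
      choose! f hf using h2
      obtain ⟨K, hK⟩ := (hfin.image f).bddAbove
      exact ⟨K, fun x hx => hmono (hK (Set.mem_image_of_mem f hx)) (hf x hx)⟩
    obtain ⟨k, hk⟩ := h1
    refine ⟨k, ?_⟩
    show m ≤ (cl (↑(bx D k)) {0} c).ncard
    have h3 : S.ncard = m := by
      rw [Set.ncard, hm]
      rfl
    rw [← h3]
    exact Set.ncard_le_ncard hk (cl_fin _ _ _)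
  · rintro ⟨k, hk⟩
    have hk' : m ≤ (cl (↑(bx D k)) {0} c).ncard := hk
    show (m : ℕ∞) ≤ (cl Set.univ {0} c).encard
    have h1 : (cl (↑(bx D k)) {0} c).encard ≤ (cl Set.univ {0} c).encard :=
      Set.encard_le_encard (cl_mono (Set.subset_univ _) le_rfl c)
    refine le_trans ?_ h1
    rw [← (cl_fin (bx D k) {0} c).cast_ncard_eq]
    exact_mod_cast hk'

private theorem meas_tail (m : ℕ) : MeasurableSet {c : HConf D | (m : ℕ∞) ≤ (cl Set.univ {0} c).encard} := by
  rw [tail_set]
  exact MeasurableSet.iUnion fun k => meas_fin (Finset.finite_toSet _) _ fun s => m ≤ s.ncard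

private theorem meas_card (n : ℕ∞) : MeasurableSet {c : HConf D | (cl Set.univ {0} c).encard = n} := by
  induction n with
  | top =>
    have h1 : {c : HConf D | (cl Set.univ {0} c).encard = ⊤} =
        ⋂ m : ℕ, {c : HConf D | (m : ℕ∞) ≤ (cl Set.univ {0} c).encard} := by
      ext c
      rw [Set.mem_iInter]
      show (cl Set.univ {0} c).encard = ⊤ ↔ ∀ m : ℕ, (m : ℕ∞) ≤ (cl Set.univ {0} c).encard
      constructor
      · intro h m
        rw [h]
        exact le_top
      · intro h
        exact ENat.eq_top_iff_forall_ge.2 h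
    rw [h1]
    exact MeasurableSet.iInter fun m => meas_tail m
  | coe m =>
    have h1 : {c : HConf D | (cl Set.univ {0} c).encard = (m : ℕ∞)} =
        {c : HConf D | (m : ℕ∞) ≤ (cl Set.univ {0} c).encard} \
          {c : HConf D | ((m + 1 : ℕ) : ℕ∞) ≤ (cl Set.univ {0} c).encard} := by
      ext c
      show (cl Set.univ {0} c).encard = (m : ℕ∞) ↔ (m : ℕ∞) ≤ (cl Set.univ {0} c).encard ∧
        ¬((m + 1 : ℕ) : ℕ∞) ≤ (cl Set.univ {0} c).encard
      generalize (cl Set.univ {0} c).encard = e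
      induction e with
      | top =>
        constructor
        · intro h
          exact absurd h.symm (ENat.natCast_ne_top m)
        · intro h
          exact absurd le_top h.2
      | coe n =>
        rw [Nat.cast_inj, Nat.cast_le, Nat.cast_le]
        omega
    rw [h1]
    exact (meas_tail m).diff (meas_tail (m + 1))

private theorem meas_fun {γ : Type*} [MeasurableSpace γ] (g : ℕ∞ → γ) :
    Measurable fun c : HConf D => g (cl Set.univ {0} c).encard := by
  intro s _
  have h1 : (fun c : HConf D => g (cl Set.univ {0} c).encard) ⁻¹' s =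
      ⋃ n ∈ {n : ℕ∞ | g n ∈ s}, {c : HConf D | (cl Set.univ {0} c).encard = n} := by
    ext c
    rw [Set.mem_iUnion₂]
    constructor
    · intro h
      exact ⟨_, h, rfl⟩
    · rintro ⟨n, hn, hc⟩
      have hc' : (cl Set.univ {0} c).encard = n := hc
      show g (cl Set.univ {0} c).encard ∈ s
      rw [hc']
      exact hn
  rw [h1]
  exact MeasurableSet.biUnion (Set.to_countable _) fun n _ => meas_card n

open Classical in
/-- `exp (-h |C|)` -/
noncomputable def KX (h : ℝ) (C : Set (HV D)) : ℝ := if C.Finite then Real.exp (-(h * C.ncard)) else 0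

noncomputable def kap (w : Set.Ioo (0 : ℝ) 1) (D : ℕ) (h : ℝ) : ℝ := ∫ c, KX h (cl Set.univ {0} c) ∂HQ w D

private theorem KX_nonneg (h : ℝ) (C : Set (HV D)) : 0 ≤ KX h C := by
  classical
  unfold KX
  split_ifs
  · exact (Real.exp_pos _).le
  · exact le_rfl

private theorem KX_le_one {h : ℝ} (hh : 0 ≤ h) (C : Set (HV D)) : KX h C ≤ 1 := by
  classical
  unfold KX
  split_ifs
  · rw [← Real.exp_zero]
    refine Real.exp_le_exp.2 ?_
    have := mul_nonneg hh (Nat.cast_nonneg C.ncard : (0 : ℝ) ≤ C.ncard)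
    linarith
  · exact zero_le_one

private theorem meas_KX (h : ℝ) : Measurable fun c : HConf D => KX h (cl Set.univ {0} c) := by
  classical
  have h1 : (fun c : HConf D => KX h (cl Set.univ {0} c)) =
      fun c => (fun n : ℕ∞ => if n = ⊤ then (0 : ℝ) else Real.exp (-(h * n.toNat))) (cl Set.univ {0} c).encard := by
    funext c
    show KX h (cl Set.univ {0} c) = if (cl Set.univ {0} c).encard = ⊤ then (0 : ℝ) else
      Real.exp (-(h * (cl Set.univ {0} c).encard.toNat))
    unfold KX
    by_cases hf : (cl Set.univ {0} c).Finite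
    · rw [if_pos hf, if_neg (Set.encard_ne_top_iff.2 hf)]
      rfl
    · rw [if_neg hf, if_pos (Set.encard_eq_top_iff.2 hf)]
  rw [h1]
  exact meas_fun fun n : ℕ∞ => if n = ⊤ then (0 : ℝ) else Real.exp (-(h * n.toNat))

private theorem int_KX (w : Set.Ioo (0 : ℝ) 1) {h : ℝ} (hh : 0 ≤ h) :
    Integrable (fun c : HConf D => KX h (cl Set.univ {0} c)) (HQ w D) := by
  refine Integrable.of_bound (meas_KX h).aestronglyMeasurable 1 (Filter.Eventually.of_forall fun c => ?_)
  rw [Real.norm_eq_abs, abs_of_nonneg (KX_nonneg _ _)]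
  exact KX_le_one hh _

theorem kap_nonneg (w : Set.Ioo (0 : ℝ) 1) {h : ℝ} (hh : 0 ≤ h) : 0 ≤ kap w D h :=
  integral_nonneg fun _ => KX_nonneg _ _

theorem kap_le_one (w : Set.Ioo (0 : ℝ) 1) {h : ℝ} (hh : 0 ≤ h) : kap w D h ≤ 1 := by
  have h1 : kap w D h ≤ ∫ _ : HConf D, (1 : ℝ) ∂HQ w D :=
    integral_mono (int_KX w hh) (integrable_const _) fun c => KX_le_one hh _
  rw [integral_const, probReal_univ, one_smul] at h1
  exact h1

theorem kap_le (w : Set.Ioo (0 : ℝ) 1) {h : ℝ} (hh : 0 ≤ h) (T : Finset (HV D)) (z : HV D) :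
    kap w D h ≤ EE w (X h) T {z} := by
  classical
  have hinj : Function.Injective fun x : HV D => z + x := fun a b hab => add_left_cancel hab
  have hT' : ((fun x : HV D => z + x) ⁻¹' (↑T : Set (HV D))).Finite :=
    (Finset.finite_toSet T).preimage hinj.injOn
  have him : (fun x : HV D => z + x) '' ((fun x : HV D => z + x) ⁻¹' (↑T : Set (HV D))) = ↑T := by
    refine Set.image_preimage_eq _ fun y => ⟨y - z, ?_⟩
    show z + (y - z) = y
    abel
  have h1 : ∀ c : HConf D, X h (cl (↑T) {z} c).ncard =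
      X h (cl ((fun x : HV D => z + x) ⁻¹' (↑T : Set (HV D))) {0} (fun x => c (z + x))).ncard := by
    intro c
    have h2 := cl_shift z ((fun x : HV D => z + x) ⁻¹' (↑T : Set (HV D))) {0} c
    rw [him, Set.image_singleton] at h2
    have h3 : z + (0 : HV D) = z := add_zero z
    rw [h3] at h2
    rw [h2, Set.ncard_image_of_injective _ hinj]
  have hmG : Measurable fun c : HConf D =>
      X h (cl ((fun x : HV D => z + x) ⁻¹' (↑T : Set (HV D))) {0} c).ncard :=
    Dep.measurable hT' ((cl_dep _ _).comp fun s => X h s.ncard)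
  have h4 : EE w (X h) T {z} =
      ∫ c, X h (cl ((fun x : HV D => z + x) ⁻¹' (↑T : Set (HV D))) {0} c).ncard ∂HQ w D := by
    have h5 : (HQ w D).map (fun (c : HConf D) (x : HV D) => c (z + x)) = HQ w D :=
      map_inj (hLaw w D) (fun x : HV D => z + x) hinj
    have h6 : Measurable fun (c : HConf D) (x : HV D) => c (z + x) :=
      measurable_pi_lambda _ fun x => measurable_pi_apply _
    calc EE w (X h) T {z} = ∫ c, X h (cl ((fun x : HV D => z + x) ⁻¹' (↑T : Set (HV D))) {0}
          (fun x => c (z + x))).ncard ∂HQ w D := integral_congr_ae (Filter.Eventually.of_forall h1)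
      _ = ∫ c, X h (cl ((fun x : HV D => z + x) ⁻¹' (↑T : Set (HV D))) {0} c).ncard
          ∂((HQ w D).map (fun (c : HConf D) (x : HV D) => c (z + x))) :=
          (integral_map h6.aemeasurable hmG.aestronglyMeasurable).symm
      _ = _ := by rw [h5]
  rw [h4]
  refine integral_mono (int_KX w hh) ?_ fun c => ?_
  · refine Integrable.of_bound hmG.aestronglyMeasurable 1 (Filter.Eventually.of_forall fun c => ?_)
    show ‖X h _‖ ≤ 1
    unfold X
    rw [Real.norm_eq_abs, abs_of_pos (Real.exp_pos _), ← Real.exp_zero]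
    refine Real.exp_le_exp.2 ?_
    have := mul_nonneg hh (Nat.cast_nonneg (cl ((fun x : HV D => z + x) ⁻¹' (↑T : Set (HV D))) {0} c).ncard :
      (0 : ℝ) ≤ (cl ((fun x : HV D => z + x) ⁻¹' (↑T : Set (HV D))) {0} c).ncard)
    linarith
  · show KX h (cl Set.univ {0} c) ≤ X h (cl ((fun x : HV D => z + x) ⁻¹' (↑T : Set (HV D))) {0} c).ncard
    unfold KX X
    by_cases hf : (cl Set.univ {0} c).Finite
    · rw [if_pos hf]
      refine Real.exp_le_exp.2 (neg_le_neg (mul_le_mul_of_nonneg_left ?_ hh))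
      exact_mod_cast Set.ncard_le_ncard (cl_mono (Set.subset_univ _) le_rfl c) hf
    · rw [if_neg hf]
      exact (Real.exp_pos _).le

theorem kap_tendsto (w : Set.Ioo (0 : ℝ) 1) (h0 : theta w D = 0) :
    Filter.Tendsto (kap w D) (𝓝[>] (0 : ℝ)) (𝓝 1) := by
  classical
  have h1 : ∫ _ : HConf D, (1 : ℝ) ∂HQ w D = 1 := by
    rw [integral_const, probReal_univ, one_smul]
  have h2 : Filter.Tendsto (fun h : ℝ => ∫ c, KX h (cl Set.univ {0} c) ∂HQ w D) (𝓝[>] (0 : ℝ))
      (𝓝 (∫ _ : HConf D, (1 : ℝ) ∂HQ w D)) := by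
    refine tendsto_integral_filter_of_dominated_convergence (fun _ => (1 : ℝ)) ?_ ?_ (integrable_const _) ?_
    · exact Filter.Eventually.of_forall fun h => (meas_KX h).aestronglyMeasurable
    · filter_upwards [self_mem_nhdsWithin] with h hh
      refine Filter.Eventually.of_forall fun c => ?_
      rw [Real.norm_eq_abs, abs_of_nonneg (KX_nonneg _ _)]
      exact KX_le_one (le_of_lt hh) _
    · have h3 : ∀ᵐ c ∂HQ w D, ¬(cl Set.univ {0} c).Infinite := by
        rw [ae_iff]
        have h4 : {c : HConf D | ¬¬(cl Set.univ {0} c).Infinite} = {c | (cl Set.univ {0} c).Infinite} := by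
          ext c
          exact not_not
        rw [h4]
        exact h0
      filter_upwards [h3] with c hc
      have hf : (cl Set.univ {0} c).Finite := Set.not_infinite.1 hc
      have h5 : (fun h : ℝ => KX h (cl Set.univ {0} c)) = fun h => Real.exp (-(h * (cl Set.univ {0} c).ncard)) := by
        funext h
        unfold KX
        rw [if_pos hf]
      rw [h5]
      have h6 : Filter.Tendsto (fun h : ℝ => Real.exp (-(h * (cl Set.univ {0} c).ncard))) (𝓝 0)
          (𝓝 (Real.exp (-(0 * (cl Set.univ {0} c).ncard)))) := by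
        have : Continuous fun h : ℝ => Real.exp (-(h * (cl Set.univ {0} c).ncard)) := by fun_prop
        exact this.tendsto 0
      rw [zero_mul, neg_zero, Real.exp_zero] at h6
      exact h6.mono_left nhdsWithin_le_nhds
  rw [h1] at h2
  exact h2

theorem tail_eq (w : Set.Ioo (0 : ℝ) 1) (m : ℕ) :
    HQ w D {c | (m : ℕ∞) ≤ (cl Set.univ {0} c).encard} = ⨆ T : Finset (HV D), ENNReal.ofReal (EE w (Ige m) T {0}) := by
  classical
  have h1 : ∀ T : Finset (HV D), ENNReal.ofReal (EE w (Ige m) T {0}) =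
      HQ w D {c | m ≤ (cl (↑T) {0} c).ncard} := by
    intro T
    have hm : MeasurableSet {c : HConf D | m ≤ (cl (↑T) {0} c).ncard} :=
      meas_fin (Finset.finite_toSet T) _ fun s => m ≤ s.ncard
    have h2 : EE w (Ige m) T {0} = ∫ c, Set.indicator {c : HConf D | m ≤ (cl (↑T) {0} c).ncard} (fun _ => (1 : ℝ)) c
        ∂HQ w D := by
      refine integral_congr_ae (Filter.Eventually.of_forall fun c => ?_)
      show Ige m (cl (↑T) {0} c).ncard = _
      unfold Ige
      by_cases hc : m ≤ (cl (↑T) {0} c).ncard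
      · rw [if_pos hc, Set.indicator_of_mem (show c ∈ {c : HConf D | m ≤ (cl (↑T) {0} c).ncard} from hc)]
      · rw [if_neg hc, Set.indicator_of_notMem (show c ∉ {c : HConf D | m ≤ (cl (↑T) {0} c).ncard} from hc)]
    rw [h2, integral_indicator_const _ hm, smul_eq_mul, mul_one, Measure.real, ENNReal.ofReal_toReal (measure_ne_top _ _)]
  simp only [h1]
  refine le_antisymm ?_ (iSup_le fun T => ?_)
  · rw [tail_set]
    have hmono : Monotone fun k => {c : HConf D | m ≤ (cl (↑(bx D k)) {0} c).ncard} := by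
      intro a b hab c hc
      have hc' : m ≤ (cl (↑(bx D a)) {0} c).ncard := hc
      show m ≤ (cl (↑(bx D b)) {0} c).ncard
      exact hc'.trans (Set.ncard_le_ncard (cl_mono (bx_mono hab) le_rfl c) (cl_fin _ _ _))
    rw [hmono.measure_iUnion]
    exact iSup_le fun k => le_iSup (fun T : Finset (HV D) => HQ w D {c | m ≤ (cl (↑T) {0} c).ncard}) (bx D k)
  · refine measure_mono fun c hc => ?_
    have hc' : m ≤ (cl (↑T) {0} c).ncard := hc
    show (m : ℕ∞) ≤ (cl Set.univ {0} c).encard
    refine le_trans ?_ (Set.encard_le_encard (cl_mono (Set.subset_univ (↑T : Set (HV D))) le_rfl c))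
    rw [← (cl_fin T {0} c).cast_ncard_eq]
    exact_mod_cast hc'

private theorem tsum_mem {α : Type*} (C : Set α) : ∑' y, TR.ind (y ∈ C) = ((C.encard : ℕ∞) : ℝ≥0∞) := by
  classical
  have h1 : ∀ y, TR.ind (y ∈ C) = C.indicator (fun _ => (1 : ℝ≥0∞)) y := by
    intro y
    by_cases hy : y ∈ C
    · rw [TR.ind_true hy, Set.indicator_of_mem hy]
    · rw [TR.ind_false hy, Set.indicator_of_notMem hy]
  simp only [h1]
  rw [← tsum_subtype, ENNReal.tsum_set_one]

private theorem tsum_tail (e : ℕ∞) : ∑' m : ℕ, TR.ind (((m + 1 : ℕ) : ℕ∞) ≤ e) = (e : ℝ≥0∞) := by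
  classical
  have h1 : ∀ m : ℕ, TR.ind (((m + 1 : ℕ) : ℕ∞) ≤ e) = TR.ind (m ∈ {m : ℕ | ((m + 1 : ℕ) : ℕ∞) ≤ e}) := fun m => rfl
  simp only [h1]
  rw [tsum_mem]
  congr 1
  induction e with
  | top =>
    have h2 : {m : ℕ | ((m + 1 : ℕ) : ℕ∞) ≤ ⊤} = Set.univ := Set.eq_univ_of_forall fun m =>
      show ((m + 1 : ℕ) : ℕ∞) ≤ ⊤ from le_top
    rw [h2]
    exact Set.encard_eq_top_iff.2 Set.infinite_univ
  | coe n =>
    have h2 : {m : ℕ | ((m + 1 : ℕ) : ℕ∞) ≤ (n : ℕ∞)} = ↑(Finset.range n) := by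
      ext m
      rw [Finset.mem_coe, Finset.mem_range]
      show ((m + 1 : ℕ) : ℕ∞) ≤ (n : ℕ∞) ↔ m < n
      rw [Nat.cast_le]
      omega
    rw [h2, Set.encard_coe_eq_coe_finsetCard, Finset.card_range]

/-- the mean number of activated frogs from the tail -/
theorem mean_eq (w : Set.Ioo (0 : ℝ) 1) :
    ∑' y : HV D, HQ w D {c | Cl Set.univ {0} c y} =
      ∑' m : ℕ, HQ w D {c | ((m + 1 : ℕ) : ℕ∞) ≤ (cl Set.univ {0} c).encard} := by
  classical
  have h1 : ∀ y : HV D, Measurable fun c : HConf D => Cl Set.univ {0} c y := fun y =>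
    measurableSet_setOfPred.1 (meas_cl Set.univ {0} y)
  have h2 : ∀ m : ℕ, Measurable fun c : HConf D => ((m + 1 : ℕ) : ℕ∞) ≤ (cl Set.univ {0} c).encard := fun m =>
    measurableSet_setOfPred.1 (meas_tail (m + 1))
  calc ∑' y : HV D, HQ w D {c | Cl Set.univ {0} c y} = ∑' y : HV D, ∫⁻ c, TR.ind (Cl Set.univ {0} c y) ∂HQ w D :=
        tsum_congr fun y => (TR.lintegral_ind _ (h1 y)).symm
    _ = ∫⁻ c, ∑' y : HV D, TR.ind (Cl Set.univ {0} c y) ∂HQ w D :=
        (lintegral_tsum fun y => (TR.measurable_ind (h1 y)).aemeasurable).symm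
    _ = ∫⁻ c, ∑' m : ℕ, TR.ind (((m + 1 : ℕ) : ℕ∞) ≤ (cl Set.univ {0} c).encard) ∂HQ w D := by
        refine lintegral_congr fun c => ?_
        rw [tsum_tail]
        exact tsum_mem (cl Set.univ {0} c)
    _ = ∑' m : ℕ, ∫⁻ c, TR.ind (((m + 1 : ℕ) : ℕ∞) ≤ (cl Set.univ {0} c).encard) ∂HQ w D :=
        lintegral_tsum fun m => (TR.measurable_ind (h2 m)).aemeasurable
    _ = _ := tsum_congr fun m => TR.lintegral_ind _ (h2 m)

end FDr.SH
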