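import Pool.Agent.Lib.MP_e029a2_pr.SH.RecI

/-!
# The main inequality for finitely many frogs (job MI)

`X h n = exp (-(h n))`, `0 ≤ h`, values in `(0,1]`, antitone, `X h (n+1) = exp (-h) X h n`.
* `cost`: if `κ ≤ EE w (X h) T {z}` for all finite `T` and all `z`, `0 ≤ κ ≤ 1`, then `κ * EE w (X h) T U ≤ EE w (X h) T (insert z U)`.
  Induction on `T.card` (for all `U`): if `T ∩ U = ∅`: `EE .. U = X h 0 = 1` (`EE_eq_zero_disj`) and `cl T (insert z U) = cl T {z}` (`cl_insert_of_disj`).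
  Otherwise take `x ∈ T ∩ U` and use `EE_rec` for `U` and for `insert z U` with the same `x`; `(fun n => X h (n+1)) = exp(-h) X h` (`EE_const_mul`);
  termwise the induction hypothesis for `T.erase x` and `U ∪ rch x l` (`insert z U ∪ R = insert z (U ∪ R)`); both series are summable
  (`rW_hasSum`, terms bounded by `rW`), `tsum_le_tsum`.
* `main_fin`: induction on `T.card`, for all `U` and all `m`.  If `T ∩ U = ∅` all three numbers are the value at `n = 0`: `1{m ≤ 0} * 1 ≤ 1{m ≤ 0}`.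
  Otherwise `x ∈ T ∩ U`, `EE_rec` three times:
  `EE w' 1{m ≤ ·} T U = ∑' l, rW p' l * q l`, `q l = EE w' 1{m-1 ≤ ·} (T.erase x) (U ∪ rch x l)` (`m ≤ n+1 ↔ m-1 ≤ n`),
  `EE w (X h) T U = exp(-h) ∑' l, rW p l * g l`, `g l = EE w (X h) (T.erase x) (U ∪ rch x l)`,
  `EE w (X h 1{m ≤ ·}) T U = exp(-h) ∑' l, rW p l * G l ≥ exp(-h) ∑' l, rW p l * (q l * g l)` by the induction hypothesis, and `single_frog` with
  `p = 1 - w`, `p' = 1 - w'`: `q` increasing under extension (`rch_append`, `EE_mono_set`), `g` decreasing (`EE_anti_set`), `κ g l ≤ g (l ++ [a])` by `cost`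
  (`U ∪ rch x (l ++ [a]) = insert _ (U ∪ rch x l)`).
-/

set_option autoImplicit false

namespace FDr.SH

open MeasureTheory ProbabilityTheory
open scoped ENNReal

variable {D : ℕ} [NeZero D]

/-- the weight `exp (-h n)` -/
noncomputable def X (h : ℝ) (n : ℕ) : ℝ := Real.exp (-(h * n))

/-- the indicator of `m ≤ n` -/
noncomputable def Ige (m n : ℕ) : ℝ := if m ≤ n then 1 else 0

private theorem Main_X0 {h : ℝ} (n : ℕ) : 0 ≤ X h n := (Real.exp_pos _).le

private theorem Main_X1 {h : ℝ} (hh : 0 ≤ h) (n : ℕ) : X h n ≤ 1 := by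
  unfold X
  rw [Real.exp_le_one_iff]
  have : 0 ≤ h * n := mul_nonneg hh (Nat.cast_nonneg n)
  linarith

private theorem Main_Xa {h : ℝ} (hh : 0 ≤ h) : Antitone (X h) := by
  intro a b hab
  unfold X
  rw [Real.exp_le_exp]
  have h1 : (a : ℝ) ≤ b := Nat.cast_le.2 hab
  have h2 := mul_le_mul_of_nonneg_left h1 hh
  linarith

private theorem Main_Xs (h : ℝ) (n : ℕ) : X h (n + 1) = Real.exp (-h) * X h n := by
  unfold X
  rw [← Real.exp_add]
  congr 1
  push_cast
  ring

private theorem Main_X00 (h : ℝ) : X h 0 = 1 := by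
  unfold X
  simp

private theorem Main_I0 (m n : ℕ) : 0 ≤ Ige m n := by
  unfold Ige
  split_ifs
  · exact zero_le_one
  · exact le_rfl

private theorem Main_I1 (m n : ℕ) : Ige m n ≤ 1 := by
  unfold Ige
  split_ifs
  · exact le_rfl
  · exact zero_le_one

private theorem Main_Im (m : ℕ) : Monotone (Ige m) := by
  intro a b hab
  unfold Ige
  split_ifs with h1 h2
  · exact le_rfl
  · exact absurd (le_trans h1 hab) h2
  · exact zero_le_one
  · exact le_rfl

private theorem Main_Is (m n : ℕ) : Ige m (n + 1) = Ige (m - 1) n := by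
  unfold Ige
  by_cases h : m ≤ n + 1
  · rw [if_pos h, if_pos (by omega)]
  · rw [if_neg h, if_neg (by omega)]

private theorem Main_sum {p : ℝ} (h0 : 0 ≤ p) (h1 : p < 1) {G : HRun D → ℝ} (hG0 : ∀ l, 0 ≤ G l) (hG1 : ∀ l, G l ≤ 1) :
    Summable fun l : HRun D => rW p l * G l := by
  refine Summable.of_nonneg_of_le (fun l => mul_nonneg (rW_nonneg h0 h1 l) (hG0 l)) (fun l => ?_)
    (rW_hasSum (A := HD D) h0 h1).summable
  exact mul_le_of_le_one_right (rW_nonneg h0 h1 l) (hG1 l)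

private theorem Main_recX (w : Set.Ioo (0 : ℝ) 1) {h : ℝ} (hh : 0 ≤ h) {T : Finset (HV D)}
    {U : Set (HV D)} {x : HV D} (hx : x ∈ T) (hU : x ∈ U) :
    EE w (X h) T U = Real.exp (-h) * ∑' l : HRun D, rW (1 - (w : ℝ)) l * EE w (X h) (T.erase x) (U ∪ rch x l) := by
  rw [EE_rec w (Main_X0) (Main_X1 hh) hx hU, ← tsum_mul_left]
  refine tsum_congr fun l => ?_
  rw [show (fun n => X h (n + 1)) = fun n => Real.exp (-h) * X h n from funext fun n => Main_Xs h n, EE_const_mul]
  ring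

theorem cost (w : Set.Ioo (0 : ℝ) 1) {h κ : ℝ} (hh : 0 ≤ h) (hκ0 : 0 ≤ κ) (hκ1 : κ ≤ 1)
    (hκ : ∀ (T : Finset (HV D)) (z : HV D), κ ≤ EE w (X h) T {z}) (T : Finset (HV D)) (U : Set (HV D)) (z : HV D) :
    κ * EE w (X h) T U ≤ EE w (X h) T (insert z U) := by
  have hp0 : (0 : ℝ) ≤ 1 - w := by linarith [w.2.2]
  have hp1 : 1 - (w : ℝ) < 1 := by linarith [w.2.1]
  induction T using Finset.strongInduction generalizing U with
  | H T ih =>
    by_cases hTU : ∀ x ∈ T, x ∉ U
    · rw [EE_eq_zero_disj w (X h) hTU, Main_X00, mul_one]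
      have h1 : EE w (X h) T (insert z U) = EE w (X h) T {z} := by
        unfold EE
        refine integral_congr_ae (Filter.Eventually.of_forall fun c => ?_)
        show X h (cl (↑T) (insert z U) c).ncard = X h (cl (↑T) {z} c).ncard
        rw [cl_insert_of_disj (fun x hx => hTU x hx) c]
      rw [h1]
      exact hκ T z
    · push Not at hTU
      obtain ⟨x, hx, hU⟩ := hTU
      rw [Main_recX w hh hx hU, Main_recX w hh hx (Set.mem_insert_of_mem z hU), mul_left_comm]
      refine mul_le_mul_of_nonneg_left ?_ (Real.exp_pos _).le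
      rw [← tsum_mul_left]
      refine Summable.tsum_le_tsum (fun l => ?_) ?_ ?_
      · have h1 := ih (T.erase x) (Finset.erase_ssubset hx) (U ∪ rch x l)
        rw [Set.insert_union]
        have h2 := mul_le_mul_of_nonneg_left h1 (rW_nonneg hp0 hp1 l)
        rw [mul_left_comm]
        exact h2
      · exact (Main_sum hp0 hp1 (fun l => EE_nonneg w Main_X0 _ _) (fun l => EE_le_one w Main_X0 (Main_X1 hh) _ _)).mul_left κ
      · exact Main_sum hp0 hp1 (fun l => EE_nonneg w Main_X0 _ _) (fun l => EE_le_one w Main_X0 (Main_X1 hh) _ _)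

theorem main_fin (w w' : Set.Ioo (0 : ℝ) 1) {h κ : ℝ} (hh : 0 ≤ h) (hκ0 : 0 ≤ κ) (hκ1 : κ ≤ 1)
    (hκ : ∀ (T : Finset (HV D)) (z : HV D), κ ≤ EE w (X h) T {z})
    (hw : (1 - (w' : ℝ)) * (1 - (1 - (w : ℝ)) * κ) ≤ (1 - (w : ℝ)) * (κ * w)) (m : ℕ) (T : Finset (HV D))
    (U : Set (HV D)) :
    EE w' (Ige m) T U * EE w (X h) T U ≤ EE w (fun n => Ige m n * X h n) T U := by
  have hp0 : (0 : ℝ) ≤ 1 - w := by linarith [w.2.2]
  have hp1 : 1 - (w : ℝ) < 1 := by linarith [w.2.1]
  have hp0' : (0 : ℝ) ≤ 1 - w' := by linarith [w'.2.2]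
  have hp1' : 1 - (w' : ℝ) < 1 := by linarith [w'.2.1]
  have hIX0 : ∀ m n, 0 ≤ Ige m n * X h n := fun m n => mul_nonneg (Main_I0 m n) (Main_X0 n)
  have hIX1 : ∀ m n, Ige m n * X h n ≤ 1 := fun m n => mul_le_one₀ (Main_I1 m n) (Main_X0 n) (Main_X1 hh n)
  induction T using Finset.strongInduction generalizing U m with
  | H T ih =>
    by_cases hTU : ∀ x ∈ T, x ∉ U
    · rw [EE_eq_zero_disj w' (Ige m) hTU, EE_eq_zero_disj w (X h) hTU, EE_eq_zero_disj w _ hTU]
    · push Not at hTU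
      obtain ⟨x, hx, hU⟩ := hTU
      have e1 : EE w' (Ige m) T U = ∑' l : HRun D, rW (1 - (w' : ℝ)) l * EE w' (Ige (m - 1)) (T.erase x) (U ∪ rch x l) := by
        rw [EE_rec w' (Main_I0 m) (Main_I1 m) hx hU]
        refine tsum_congr fun l => ?_
        rw [show (fun n => Ige m (n + 1)) = Ige (m - 1) from funext fun n => Main_Is m n]
      have e2 : EE w (fun n => Ige m n * X h n) T U = Real.exp (-h) * ∑' l : HRun D, rW (1 - (w : ℝ)) l *
          EE w (fun n => Ige (m - 1) n * X h n) (T.erase x) (U ∪ rch x l) := by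
        rw [EE_rec w (hIX0 m) (hIX1 m) hx hU, ← tsum_mul_left]
        refine tsum_congr fun l => ?_
        rw [show (fun n => Ige m (n + 1) * X h (n + 1)) = fun n => Real.exp (-h) * (Ige (m - 1) n * X h n) from
          funext fun n => by rw [Main_Is, Main_Xs]; ring, EE_const_mul]
        ring
      have hins : ∀ (l : HRun D) (a : HD D), U ∪ rch x (l ++ [a]) = insert (x + hdsp (l ++ [a])) (U ∪ rch x l) := by
        intro l a
        rw [rch_append, Set.union_insert]
      have key := single_frog (A := HD D) hp0 hp1 hp0' hp1' hκ0 hκ1 (by rw [sub_sub_cancel]; exact hw)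
        (fun l => EE w' (Ige (m - 1)) (T.erase x) (U ∪ rch x l)) (fun l => EE w (X h) (T.erase x) (U ∪ rch x l))
        (fun l => EE_nonneg w' (Main_I0 _) _ _) (fun l => EE_le_one w' (Main_I0 _) (Main_I1 _) _ _)
        (fun l => EE_nonneg w Main_X0 _ _) (fun l => EE_le_one w Main_X0 (Main_X1 hh) _ _)
        (fun l a => by
          show EE w' (Ige (m - 1)) (T.erase x) (U ∪ rch x l) ≤ EE w' (Ige (m - 1)) (T.erase x) (U ∪ rch x (l ++ [a]))
          rw [hins]
          exact EE_mono_set w' (Main_I0 _) (Main_I1 _) (Main_Im _) _ (Set.subset_insert _ _))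
        (fun l a => by
          show EE w (X h) (T.erase x) (U ∪ rch x (l ++ [a])) ≤ EE w (X h) (T.erase x) (U ∪ rch x l)
          rw [hins]
          exact EE_anti_set w Main_X0 (Main_X1 hh) (Main_Xa hh) _ (Set.subset_insert _ _))
        (fun l a => by
          show κ * EE w (X h) (T.erase x) (U ∪ rch x l) ≤ EE w (X h) (T.erase x) (U ∪ rch x (l ++ [a]))
          rw [hins]
          exact cost w hh hκ0 hκ1 hκ _ _ _)
      rw [e1, e2, Main_recX w hh hx hU, mul_left_comm]
      refine mul_le_mul_of_nonneg_left (le_trans key ?_) (Real.exp_pos _).le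
      refine Summable.tsum_le_tsum (fun l => ?_) ?_ ?_
      · exact mul_le_mul_of_nonneg_left (ih (T.erase x) (Finset.erase_ssubset hx) (m - 1) (U ∪ rch x l)) (rW_nonneg hp0 hp1 l)
      · exact Main_sum hp0 hp1
          (fun l => mul_nonneg (EE_nonneg w' (Main_I0 _) _ _) (EE_nonneg w Main_X0 _ _))
          (fun l => mul_le_one₀ (EE_le_one w' (Main_I0 _) (Main_I1 _) _ _) (EE_nonneg w Main_X0 _ _)
            (EE_le_one w Main_X0 (Main_X1 hh) _ _))
      · exact Main_sum hp0 hp1 (fun l => EE_nonneg w (hIX0 _) _ _) (fun l => EE_le_one w (hIX0 _) (hIX1 _) _ _)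

end FDr.SH
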