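import Mathlib

/-!
# The single frog lemma (job SF; only Mathlib)

`A` a finite nonempty alphabet, `rW p l = (1-p) (p/|A|)^|l|` the probability of the list `l` (before every letter the word stops with
probability `1 - p`).  For `f : List A → ℝ` with `0 ≤ f ≤ 1` let `I_p f l = ∑' m, rW p m * f (l ++ m)` (the mean over the continuations of `l`).
(a) `rW p` is summable with sum `1` for `0 ≤ p < 1` (`List.equivSigmaTuple`, the lists of length `n` have total weight `(1-p) p^n`; geometric sum).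
(b) one step: `I_p f l = (1-p) f l + (p/|A|) ∑ a, I_p f (l ++ [a])` (split the lists in `[]` and `a :: m`, `l ++ (a :: m) = (l ++ [a]) ++ m`,
`rW p (a :: m) = (p/|A|) rW p m`).
(c) truncated means `E_p 0 f l = f l`, `E_p (T+1) f l = (1-p) f l + (p/|A|) ∑ a, E_p T f (l ++ [a])` (define it by recursion on `T`, `private`);
`|I_p f l - E_p T f l| ≤ p^T` by induction on `T` from (b) (for `T = 0`: both in `[0,1]`).
(d) let `q, g` be as in the theorem, `ρ = (1-p)/(1-pκ) ≤ 1`.  By induction on `T`: `ρ g l ≤ E_p T g l ≤ g l`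
(`(1-p) g + p ρ κ g = ρ g`), and `q l ≤ E_p' T q l`.
(e) `E_p' T q l * E_p T g l ≤ E_p T (q g) l` by induction on `T`.  `T = 0`: equality.  `T + 1`: write `b_a = E_p' T q (l ++ [a]) ≥ q (l ++ [a]) ≥ q l =: s`,
`c_a = E_p T g (l ++ [a])`, `c_a ≤ g (l ++ [a]) ≤ g l =: γ`, `c_a ≥ ρ g (l ++ [a]) ≥ ρ κ γ`, `δ_a = b_a - s ≥ 0`, `avg` = mean over `a`.  Then
`((1-p') s + p' avg b) ((1-p) γ + p avg c) = (s + p' avg δ) ((1-p) γ + p avg c) ≤ s ((1-p) γ + p avg c) + p' γ avg δ`, and
`(1-p) s γ + p avg (b c) = s ((1-p) γ + p avg c) + p avg (δ c) ≥ s (..) + p ρ κ γ avg δ`, and `p' ≤ p ρ κ`.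
(f) let `T → ∞` at `l = []` (`p^T → 0`).
-/

set_option autoImplicit false

namespace FDr.SH

/-- the probability of a list -/
noncomputable def rW {A : Type*} [Fintype A] (p : ℝ) (l : List A) : ℝ := (1 - p) * (p / Fintype.card A) ^ l.length

theorem rW_nonneg {A : Type*} [Fintype A] {p : ℝ} (h0 : 0 ≤ p) (h1 : p < 1) (l : List A) : 0 ≤ rW p l := by
  unfold rW
  have h2 : 0 ≤ 1 - p := by linarith
  positivity

private noncomputable def SF_M {A : Type*} [Fintype A] : ℕ → (List A → ℝ) → List A → ℝ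
  | 0, f, l => f l
  | n + 1, f, l => (∑ a : A, SF_M n f (l ++ [a])) / (Fintype.card A : ℝ)

private theorem SF_M_sum {A : Type*} [Fintype A] (f : List A → ℝ) (n : ℕ) (l : List A) :
    SF_M n f l = (∑ m : Fin n → A, f (l ++ List.ofFn m)) / (Fintype.card A : ℝ) ^ n := by
  induction n generalizing l with
  | zero => simp [SF_M]
  | succ n ih =>
    have h : ∑ m : Fin (n + 1) → A, f (l ++ List.ofFn m) =
        ∑ a : A, ∑ m : Fin n → A, f (l ++ [a] ++ List.ofFn m) := by
      rw [← (Fin.consEquiv (fun _ : Fin (n + 1) => A)).sum_comp, Fintype.sum_prod_type]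
      refine Finset.sum_congr rfl fun a _ => Finset.sum_congr rfl fun m _ => ?_
      simp [Fin.consEquiv]
    rw [SF_M, h]
    simp only [ih]
    rw [← Finset.sum_div, div_div, pow_succ]

private theorem SF_M_mem {A : Type*} [Fintype A] [Nonempty A] (f : List A → ℝ) (hf0 : ∀ l, 0 ≤ f l)
    (hf1 : ∀ l, f l ≤ 1) (n : ℕ) (l : List A) : 0 ≤ SF_M n f l ∧ SF_M n f l ≤ 1 := by
  have hN : (0 : ℝ) < Fintype.card A := by exact_mod_cast Fintype.card_pos
  induction n generalizing l with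
  | zero => exact ⟨hf0 l, hf1 l⟩
  | succ n ih =>
    rw [SF_M]
    constructor
    · exact div_nonneg (Finset.sum_nonneg fun a _ => (ih _).1) hN.le
    · rw [div_le_one hN]
      calc ∑ a : A, SF_M n f (l ++ [a]) ≤ ∑ _a : A, (1 : ℝ) := Finset.sum_le_sum fun a _ => (ih _).2
        _ = Fintype.card A := by simp

private theorem SF_M_summable {A : Type*} [Fintype A] [Nonempty A] {p : ℝ} (h0 : 0 ≤ p) (h1 : p < 1)
    (f : List A → ℝ) (hf0 : ∀ l, 0 ≤ f l) (hf1 : ∀ l, f l ≤ 1) (l : List A) :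
    Summable fun n : ℕ => (1 - p) * p ^ n * SF_M n f l := by
  have h2 : 0 ≤ 1 - p := by linarith
  refine Summable.of_nonneg_of_le (fun n => ?_) (fun n => ?_)
    ((summable_geometric_of_lt_one h0 h1).mul_left (1 - p))
  · exact mul_nonneg (by positivity) (SF_M_mem f hf0 hf1 n l).1
  · exact mul_le_of_le_one_right (by positivity) (SF_M_mem f hf0 hf1 n l).2

private theorem SF_hasSum {A : Type*} [Fintype A] [Nonempty A] {p : ℝ} (h0 : 0 ≤ p) (h1 : p < 1)
    (f : List A → ℝ) (hf0 : ∀ l, 0 ≤ f l) (hf1 : ∀ l, f l ≤ 1) :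
    HasSum (fun l : List A => rW p l * f l) (∑' n : ℕ, (1 - p) * p ^ n * SF_M n f []) := by
  have hN : (0 : ℝ) < Fintype.card A := by exact_mod_cast Fintype.card_pos
  have hs := SF_M_summable h0 h1 f hf0 hf1 []
  have hterm : ∀ n : ℕ, HasSum (fun m : Fin n → A => rW p (List.ofFn m) * f (List.ofFn m))
      ((1 - p) * p ^ n * SF_M n f []) := by
    intro n
    have h2 : (1 - p) * p ^ n * SF_M n f [] =
        ∑ m : Fin n → A, rW p (List.ofFn m) * f (List.ofFn m) := by
      rw [SF_M_sum]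
      unfold rW
      simp only [List.length_ofFn, List.nil_append]
      rw [← Finset.mul_sum, div_pow]
      field_simp
    rw [h2]
    exact hasSum_fintype _
  rw [← (List.equivSigmaTuple (α := A)).symm.hasSum_iff]
  refine HasSum.sigma_of_hasSum hs.hasSum hterm ?_
  refine (summable_sigma_of_nonneg ?_).2 ⟨fun n => (hterm n).summable, ?_⟩
  · rintro ⟨n, m⟩
    exact mul_nonneg (rW_nonneg h0 h1 _) (hf0 _)
  · have h3 : ∀ n : ℕ, ∑' m : Fin n → A, rW p (List.ofFn m) * f (List.ofFn m) =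
        (1 - p) * p ^ n * SF_M n f [] := fun n => (hterm n).tsum_eq
    exact hs.congr fun n => (h3 n).symm

theorem rW_hasSum {A : Type*} [Fintype A] [Nonempty A] {p : ℝ} (h0 : 0 ≤ p) (h1 : p < 1) :
    HasSum (fun l : List A => rW p l) 1 := by
  have hN : (Fintype.card A : ℝ) ≠ 0 := by exact_mod_cast Fintype.card_ne_zero
  have h2 := SF_hasSum (A := A) h0 h1 (fun _ => 1) (fun _ => zero_le_one) (fun _ => le_rfl)
  have h3 : ∀ (n : ℕ) (l : List A), SF_M n (fun _ => (1 : ℝ)) l = 1 := by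
    intro n
    induction n with
    | zero => exact fun l => rfl
    | succ n ih =>
      intro l
      rw [SF_M]
      simp only [ih]
      simp [hN]
  have h4 : ∑' n : ℕ, (1 - p) * p ^ n * SF_M (A := A) n (fun _ => (1 : ℝ)) [] = 1 := by
    simp only [h3, mul_one]
    rw [tsum_mul_left, tsum_geometric_of_lt_one h0 h1]
    have : 1 - p ≠ 0 := by linarith
    field_simp
  rw [h4] at h2
  simpa only [mul_one] using h2

private noncomputable def SF_E {A : Type*} [Fintype A] (p : ℝ) : ℕ → (List A → ℝ) → List A → ℝ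
  | 0, f, l => f l
  | T + 1, f, l => (1 - p) * f l + p / (Fintype.card A : ℝ) * ∑ a : A, SF_E p T f (l ++ [a])

private theorem SF_E_eq {A : Type*} [Fintype A] (p : ℝ) (f : List A → ℝ) (T : ℕ) (l : List A) :
    SF_E p T f l = ∑ n ∈ Finset.range T, (1 - p) * p ^ n * SF_M n f l + p ^ T * SF_M T f l := by
  induction T generalizing l with
  | zero => simp [SF_E, SF_M]
  | succ T ih =>
    rw [SF_E, Finset.sum_range_succ']
    simp only [ih]
    rw [Finset.sum_add_distrib, Finset.sum_comm, mul_add, Finset.mul_sum]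
    have h1 : ∀ n ∈ Finset.range T, p / (Fintype.card A : ℝ) *
        ∑ a : A, (1 - p) * p ^ n * SF_M n f (l ++ [a]) =
        (1 - p) * p ^ (n + 1) * SF_M (n + 1) f l := by
      intro n _
      rw [← Finset.mul_sum, SF_M]
      ring
    rw [Finset.sum_congr rfl h1]
    have h2 : p / (Fintype.card A : ℝ) * ∑ a : A, p ^ T * SF_M T f (l ++ [a]) =
        p ^ (T + 1) * SF_M (T + 1) f l := by
      rw [← Finset.mul_sum, SF_M]
      ring
    rw [h2, pow_zero]
    have h3 : SF_M 0 f l = f l := rfl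
    rw [h3]
    ring

private theorem SF_E_tendsto {A : Type*} [Fintype A] [Nonempty A] {p : ℝ} (h0 : 0 ≤ p) (h1 : p < 1)
    (f : List A → ℝ) (hf0 : ∀ l, 0 ≤ f l) (hf1 : ∀ l, f l ≤ 1) :
    Filter.Tendsto (fun T => SF_E p T f []) Filter.atTop (nhds (∑' l, rW p l * f l)) := by
  have hs := SF_M_summable h0 h1 f hf0 hf1 []
  rw [(SF_hasSum h0 h1 f hf0 hf1).tsum_eq]
  have h2 : Filter.Tendsto (fun T => p ^ T * SF_M T f []) Filter.atTop (nhds 0) := by
    refine squeeze_zero (fun T => ?_) (fun T => ?_) (tendsto_pow_atTop_nhds_zero_of_lt_one h0 h1)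
    · exact mul_nonneg (by positivity) (SF_M_mem f hf0 hf1 T []).1
    · exact mul_le_of_le_one_right (by positivity) (SF_M_mem f hf0 hf1 T []).2
  have h3 := hs.hasSum.tendsto_sum_nat.add h2
  rw [add_zero] at h3
  refine h3.congr fun T => ?_
  rw [SF_E_eq]

private theorem SF_card {A : Type*} [Fintype A] [Nonempty A] {p : ℝ} (s : ℝ) :
    p / (Fintype.card A : ℝ) * ∑ _a : A, s = p * s := by
  have hN : (Fintype.card A : ℝ) ≠ 0 := by exact_mod_cast Fintype.card_ne_zero
  rw [Finset.sum_const, Finset.card_univ, nsmul_eq_mul]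
  field_simp

private theorem SF_low {A : Type*} [Fintype A] [Nonempty A] {p κ ρ : ℝ} (hp0 : 0 ≤ p)
    (hρ0 : 0 ≤ ρ) (hρ1 : ρ ≤ 1) (hρ : ρ = (1 - p) + p * (ρ * κ)) (g : List A → ℝ) (hg0 : ∀ l, 0 ≤ g l)
    (hk : ∀ l a, κ * g l ≤ g (l ++ [a])) (T : ℕ) (l : List A) : ρ * g l ≤ SF_E p T g l := by
  have hN : (0 : ℝ) < Fintype.card A := by exact_mod_cast Fintype.card_pos
  induction T generalizing l with
  | zero => exact mul_le_of_le_one_left (hg0 l) hρ1
  | succ T ih =>
    rw [SF_E]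
    have h1 : ∑ _a : A, ρ * (κ * g l) ≤ ∑ a : A, SF_E p T g (l ++ [a]) :=
      Finset.sum_le_sum fun a _ => (mul_le_mul_of_nonneg_left (hk l a) hρ0).trans (ih _)
    have h2 := mul_le_mul_of_nonneg_left h1 (by positivity : 0 ≤ p / (Fintype.card A : ℝ))
    rw [SF_card] at h2
    have h3 : ρ * g l = (1 - p) * g l + p * (ρ * (κ * g l)) := by
      calc ρ * g l = ((1 - p) + p * (ρ * κ)) * g l := by rw [← hρ]
        _ = (1 - p) * g l + p * (ρ * (κ * g l)) := by ring
    rw [h3]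
    linarith

private theorem SF_up {A : Type*} [Fintype A] [Nonempty A] {p : ℝ} (hp0 : 0 ≤ p)
    (g : List A → ℝ) (hg : ∀ l a, g (l ++ [a]) ≤ g l) (T : ℕ) (l : List A) : SF_E p T g l ≤ g l := by
  have hN : (0 : ℝ) < Fintype.card A := by exact_mod_cast Fintype.card_pos
  induction T generalizing l with
  | zero => exact le_rfl
  | succ T ih =>
    rw [SF_E]
    have h1 : ∑ a : A, SF_E p T g (l ++ [a]) ≤ ∑ _a : A, g l :=
      Finset.sum_le_sum fun a _ => (ih _).trans (hg l a)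
    have h2 := mul_le_mul_of_nonneg_left h1 (by positivity : 0 ≤ p / (Fintype.card A : ℝ))
    rw [SF_card] at h2
    linarith

private theorem SF_dn {A : Type*} [Fintype A] [Nonempty A] {p : ℝ} (hp0 : 0 ≤ p)
    (q : List A → ℝ) (hq : ∀ l a, q l ≤ q (l ++ [a])) (T : ℕ) (l : List A) : q l ≤ SF_E p T q l := by
  have hN : (0 : ℝ) < Fintype.card A := by exact_mod_cast Fintype.card_pos
  induction T generalizing l with
  | zero => exact le_rfl
  | succ T ih =>
    rw [SF_E]
    have h1 : ∑ _a : A, q l ≤ ∑ a : A, SF_E p T q (l ++ [a]) :=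
      Finset.sum_le_sum fun a _ => (hq l a).trans (ih _)
    have h2 := mul_le_mul_of_nonneg_left h1 (by positivity : 0 ≤ p / (Fintype.card A : ℝ))
    rw [SF_card] at h2
    linarith

private theorem SF_key {A : Type*} [Fintype A] [Nonempty A] {p p' κ ρ : ℝ} (hp0 : 0 ≤ p)
    (hp' : 0 ≤ p') (hρ0 : 0 ≤ ρ) (hρ1 : ρ ≤ 1) (hρ : ρ = (1 - p) + p * (ρ * κ))
    (hpp : p' ≤ p * (ρ * κ)) (q g : List A → ℝ)
    (hg0 : ∀ l, 0 ≤ g l)
    (hq : ∀ l a, q l ≤ q (l ++ [a])) (hg : ∀ l a, g (l ++ [a]) ≤ g l) (hk : ∀ l a, κ * g l ≤ g (l ++ [a]))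
    (T : ℕ) (l : List A) :
    SF_E p' T q l * SF_E p T g l ≤ SF_E p T (fun m => q m * g m) l := by
  have hN : (0 : ℝ) < Fintype.card A := by exact_mod_cast Fintype.card_pos
  induction T generalizing l with
  | zero => exact le_rfl
  | succ T ih =>
    have hC : SF_E p (T + 1) g l ≤ g l := SF_up hp0 g hg (T + 1) l
    set s : ℝ := q l with hs
    set γ : ℝ := g l with hγ
    set n : ℝ := (Fintype.card A : ℝ) with hn
    set D : ℝ := ∑ a : A, (SF_E p' T q (l ++ [a]) - s) with hD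
    have hD0 : 0 ≤ D := Finset.sum_nonneg fun a _ => by
      have := (hq l a).trans (SF_dn hp' q hq T (l ++ [a]))
      linarith
    have hB : SF_E p' (T + 1) q l = s + p' / n * D := by
      have h1 : ∑ a : A, SF_E p' T q (l ++ [a]) = D + ∑ _a : A, s := by
        rw [hD, ← Finset.sum_add_distrib]
        exact Finset.sum_congr rfl fun a _ => by ring
      rw [SF_E, h1, mul_add, SF_card]
      ring
    have hCe : SF_E p (T + 1) g l = (1 - p) * γ + p / n * ∑ a : A, SF_E p T g (l ++ [a]) := by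
      rw [SF_E]
    have hR : SF_E p (T + 1) (fun m => q m * g m) l ≥
        s * SF_E p (T + 1) g l + p / n * ∑ a : A, (SF_E p' T q (l ++ [a]) - s) * SF_E p T g (l ++ [a]) := by
      rw [SF_E, hCe]
      have h1 : ∑ a : A, SF_E p' T q (l ++ [a]) * SF_E p T g (l ++ [a]) ≤
          ∑ a : A, SF_E p T (fun m => q m * g m) (l ++ [a]) := Finset.sum_le_sum fun a _ => ih _
      have h2 := mul_le_mul_of_nonneg_left h1 (by positivity : 0 ≤ p / n)
      have h3 : ∑ a : A, SF_E p' T q (l ++ [a]) * SF_E p T g (l ++ [a]) =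
          s * ∑ a : A, SF_E p T g (l ++ [a]) +
            ∑ a : A, (SF_E p' T q (l ++ [a]) - s) * SF_E p T g (l ++ [a]) := by
        rw [Finset.mul_sum, ← Finset.sum_add_distrib]
        exact Finset.sum_congr rfl fun a _ => by ring
      rw [h3, mul_add] at h2
      have h4 : s * ((1 - p) * γ + p / n * ∑ a : A, SF_E p T g (l ++ [a])) =
          (1 - p) * (s * γ) + p / n * (s * ∑ a : A, SF_E p T g (l ++ [a])) := by ring
      rw [h4]
      linarith
    have hlow : ρ * κ * γ * D ≤ ∑ a : A, (SF_E p' T q (l ++ [a]) - s) * SF_E p T g (l ++ [a]) := by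
      rw [hD, Finset.mul_sum]
      refine Finset.sum_le_sum fun a _ => ?_
      have h1 : 0 ≤ SF_E p' T q (l ++ [a]) - s := by
        have := (hq l a).trans (SF_dn hp' q hq T (l ++ [a]))
        linarith
      have h2 : ρ * κ * γ ≤ SF_E p T g (l ++ [a]) := by
        have h3 := SF_low hp0 hρ0 hρ1 hρ g hg0 hk T (l ++ [a])
        have h4 := mul_le_mul_of_nonneg_left (hk l a) hρ0
        rw [mul_assoc]
        exact h4.trans h3
      rw [mul_comm (ρ * κ * γ)]
      exact mul_le_mul_of_nonneg_left h2 h1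
    have hfin : p' / n * D * SF_E p (T + 1) g l ≤ p / n * (ρ * κ * γ * D) := by
      have h1 : p' / n * D * SF_E p (T + 1) g l ≤ p' / n * D * γ :=
        mul_le_mul_of_nonneg_left hC (by positivity)
      have h2 : p' * (D * γ / n) ≤ p * (ρ * κ) * (D * γ / n) := by
        refine mul_le_mul_of_nonneg_right hpp ?_
        have := hg0 l
        positivity
      have h3 : p' / n * D * γ = p' * (D * γ / n) := by ring
      have h4 : p / n * (ρ * κ * γ * D) = p * (ρ * κ) * (D * γ / n) := by ring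
      rw [h4]
      linarith
    have hlow2 := mul_le_mul_of_nonneg_left hlow (by positivity : 0 ≤ p / n)
    calc SF_E p' (T + 1) q l * SF_E p (T + 1) g l
        = s * SF_E p (T + 1) g l + p' / n * D * SF_E p (T + 1) g l := by
          rw [hB]
          ring
      _ ≤ s * SF_E p (T + 1) g l + p / n * (ρ * κ * γ * D) := by linarith
      _ ≤ SF_E p (T + 1) (fun m => q m * g m) l := by linarith

theorem single_frog {A : Type*} [Fintype A] [Nonempty A] {p p' κ : ℝ} (hp0 : 0 ≤ p) (hp1 : p < 1) (hp' : 0 ≤ p')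
    (hp'1 : p' < 1) (hκ0 : 0 ≤ κ) (hκ1 : κ ≤ 1) (h : p' * (1 - p * κ) ≤ p * (κ * (1 - p))) (q g : List A → ℝ)
    (hq0 : ∀ l, 0 ≤ q l) (hq1 : ∀ l, q l ≤ 1) (hg0 : ∀ l, 0 ≤ g l) (hg1 : ∀ l, g l ≤ 1)
    (hq : ∀ l a, q l ≤ q (l ++ [a])) (hg : ∀ l a, g (l ++ [a]) ≤ g l) (hk : ∀ l a, κ * g l ≤ g (l ++ [a])) :
    (∑' l, rW p' l * q l) * (∑' l, rW p l * g l) ≤ ∑' l, rW p l * (q l * g l) := by
  have hpk : 0 < 1 - p * κ := by nlinarith
  set ρ : ℝ := (1 - p) / (1 - p * κ) with hρd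
  have hρm : ρ * (1 - p * κ) = 1 - p := div_mul_cancel₀ _ hpk.ne'
  have hρ0 : 0 ≤ ρ := div_nonneg (by linarith) hpk.le
  have hρ1 : ρ ≤ 1 := by
    rw [hρd, div_le_one hpk]
    nlinarith
  have hρ : ρ = (1 - p) + p * (ρ * κ) := by linarith
  have hpp : p' ≤ p * (ρ * κ) := by
    have h2 : p * (κ * (1 - p)) = p * (ρ * κ) * (1 - p * κ) := by
      rw [← hρm]
      ring
    rw [h2] at h
    exact le_of_mul_le_mul_right h hpk
  have h1 := SF_E_tendsto hp' hp'1 q hq0 hq1
  have h2 := SF_E_tendsto hp0 hp1 g hg0 hg1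
  have h3 := SF_E_tendsto hp0 hp1 (fun m => q m * g m) (fun m => mul_nonneg (hq0 m) (hg0 m))
    (fun m => mul_le_one₀ (hq1 m) (hg0 m) (hg1 m))
  exact le_of_tendsto_of_tendsto' (h1.mul h2) h3 fun T =>
    SF_key hp0 hp' hρ0 hρ1 hρ hpp q g hg0 hq hg hk T []

end FDr.SH
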