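import Pool.Agent.Lib.MP_e029a2_pr.SH.Det
import Pool.Agent.Lib.MP_e029a2_pr.SH.SF
import Pool.Agent.Lib.MP_e029a2_pr.TB

/-!
# Revealing one frog (job RI)

`EE w F T U` = mean of `F (number of activated frogs)` for a finite set `T` of frogs; `F : ℕ → ℝ` with values in `[0,1]`.
The function `c ↦ F (cl T U c).ncard` depends only on the coordinates in the finite set `T` (`cl_dep`), so it is measurable (`Dep.measurable`),
bounded, hence integrable.
* `EE_rec`: for `x ∈ T ∩ U` and `c` with `c x = l`, `cl_rec` gives `cl T U c = insert x C`, `C = cl (T \ {x}) (U ∪ rch x l) c ∌ x` (`cl_subset`), a finite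
  set, so the number is `C.ncard + 1`, and `C` depends only on the coordinates `≠ x`.  With `ℝ≥0∞`: `∫⁻ c, ofReal F(..) ∂HQ = ∑' l, ∫⁻ c, ind (c x = l) * ofReal (F (C_l.ncard + 1))`
  (`lintegral_tsum`, exactly one `l` has `c x = l`), each summand is a product by `FDr.TR.lintegral_mul_of_disj` (file TB; `S = {x}`) and
  `∫⁻ c, ind (c x = l) = hLaw w D {l}` (`FDr.TR.lintegral_coord`).  Convert with `ENNReal.toReal` / `integral_eq_lintegral_of_nonneg_ae`
  (`ENNReal.tsum_toReal_eq`, everything is `≤ 1`).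
* `EE_anti_set`: `cl_mono` and `Set.ncard_le_ncard`.
-/

set_option autoImplicit false

namespace FDr.SH

open MeasureTheory ProbabilityTheory
open scoped ENNReal

variable {D : ℕ} [NeZero D]

theorem hW_eq (w : Set.Ioo (0 : ℝ) 1) (l : HRun D) : hW w D l = rW (1 - (w : ℝ)) l := by
  have h1 : (Fintype.card (HD D) : ℝ) = 2 * D := by
    rw [Fintype.card_prod, Fintype.card_fin, Fintype.card_bool]
    push_cast
    ring
  unfold hW rW
  rw [h1]
  congr 1
  ring

instance hLaw_prob (w : Set.Ioo (0 : ℝ) 1) : IsProbabilityMeasure (hLaw w D) := by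
  have h0 : (0 : ℝ) ≤ 1 - (w : ℝ) := by linarith [w.2.2]
  have h1 : 1 - (w : ℝ) < 1 := by linarith [w.2.1]
  have h2 := rW_hasSum (A := HD D) h0 h1
  constructor
  unfold hLaw
  rw [Measure.sum_apply _ MeasurableSet.univ]
  have h3 : ∀ l : HRun D, (ENNReal.ofReal (hW w D l) • Measure.dirac l : Measure (HRun D)) Set.univ =
      ENNReal.ofReal (rW (1 - (w : ℝ)) l) := by
    intro l
    rw [Measure.smul_apply, Measure.dirac_apply_of_mem (Set.mem_univ _), smul_eq_mul, mul_one, hW_eq]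
  rw [tsum_congr h3, ← ENNReal.ofReal_tsum_of_nonneg (fun l => rW_nonneg h0 h1 l) h2.summable, h2.tsum_eq,
    ENNReal.ofReal_one]

instance HQ_prob (w : Set.Ioo (0 : ℝ) 1) : IsProbabilityMeasure (HQ w D) := by
  unfold HQ
  infer_instance

/-- the mean of `F` of the number of activated frogs -/
noncomputable def EE (w : Set.Ioo (0 : ℝ) 1) (F : ℕ → ℝ) (T : Finset (HV D)) (U : Set (HV D)) : ℝ :=
  ∫ c, F (cl (↑T) U c).ncard ∂HQ w D

private theorem RecI_dep (F : ℕ → ℝ) (T : Finset (HV D)) (U : Set (HV D)) :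
    Dep (↑T : Set (HV D)) (fun c : HConf D => F (cl (↑T) U c).ncard) :=
  (cl_dep (↑T) U).comp fun s : Set (HV D) => F s.ncard

private theorem RecI_meas (F : ℕ → ℝ) (T : Finset (HV D)) (U : Set (HV D)) :
    Measurable (fun c : HConf D => F (cl (↑T) U c).ncard) :=
  Dep.measurable T.finite_toSet (RecI_dep F T U)

private theorem RecI_int (w : Set.Ioo (0 : ℝ) 1) {F : ℕ → ℝ} (h0 : ∀ n, 0 ≤ F n) (h1 : ∀ n, F n ≤ 1)
    (T : Finset (HV D)) (U : Set (HV D)) :
    Integrable (fun c : HConf D => F (cl (↑T) U c).ncard) (HQ w D) := by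
  refine Integrable.mono' (g := fun _ => (1 : ℝ)) (integrable_const 1) (RecI_meas F T U).aestronglyMeasurable ?_
  refine Filter.Eventually.of_forall fun c => ?_
  rw [Real.norm_eq_abs, abs_of_nonneg (h0 _)]
  exact h1 _

private theorem RecI_EE (w : Set.Ioo (0 : ℝ) 1) {F : ℕ → ℝ} (h0 : ∀ n, 0 ≤ F n)
    (T : Finset (HV D)) (U : Set (HV D)) :
    EE w F T U = (∫⁻ c, ENNReal.ofReal (F (cl (↑T) U c).ncard) ∂HQ w D).toReal := by
  unfold EE
  rw [integral_eq_lintegral_of_nonneg_ae (Filter.Eventually.of_forall fun c => h0 _)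
    (RecI_meas F T U).aestronglyMeasurable]

theorem EE_nonneg (w : Set.Ioo (0 : ℝ) 1) {F : ℕ → ℝ} (h0 : ∀ n, 0 ≤ F n) (T : Finset (HV D)) (U : Set (HV D)) :
    0 ≤ EE w F T U := by
  exact integral_nonneg fun c => h0 _

theorem EE_mono (w : Set.Ioo (0 : ℝ) 1) {F G : ℕ → ℝ} (h0 : ∀ n, 0 ≤ F n) (h : ∀ n, F n ≤ G n) (h1 : ∀ n, G n ≤ 1)
    (T : Finset (HV D)) (U : Set (HV D)) : EE w F T U ≤ EE w G T U := by
  exact integral_mono (RecI_int w h0 (fun n => (h n).trans (h1 n)) T U)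
    (RecI_int w (fun n => (h0 n).trans (h n)) h1 T U) fun c => h _

theorem EE_le_one (w : Set.Ioo (0 : ℝ) 1) {F : ℕ → ℝ} (h0 : ∀ n, 0 ≤ F n) (h1 : ∀ n, F n ≤ 1) (T : Finset (HV D))
    (U : Set (HV D)) : EE w F T U ≤ 1 := by
  have h2 : EE w F T U ≤ ∫ _c : HConf D, (1 : ℝ) ∂HQ w D :=
    integral_mono (RecI_int w h0 h1 T U) (integrable_const 1) fun c => h1 _
  rw [integral_const, probReal_univ, one_smul] at h2
  exact h2

theorem EE_const_mul (w : Set.Ioo (0 : ℝ) 1) (a : ℝ) (F : ℕ → ℝ) (T : Finset (HV D)) (U : Set (HV D)) :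
    EE w (fun n => a * F n) T U = a * EE w F T U := by
  exact integral_const_mul a _

theorem EE_eq_zero_disj (w : Set.Ioo (0 : ℝ) 1) (F : ℕ → ℝ) {T : Finset (HV D)} {U : Set (HV D)}
    (h : ∀ x ∈ T, x ∉ U) : EE w F T U = F 0 := by
  unfold EE
  have h1 : ∀ c : HConf D, F (cl (↑T) U c).ncard = F 0 := by
    intro c
    rw [cl_eq_empty (T := (↑T : Set (HV D))) (fun x hx => h x (Finset.mem_coe.1 hx)) c, Set.ncard_empty]
  rw [integral_congr_ae (Filter.Eventually.of_forall h1), integral_const, probReal_univ, one_smul]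

/-- the number of activated frogs increases with `U` -/
theorem EE_anti_set (w : Set.Ioo (0 : ℝ) 1) {F : ℕ → ℝ} (h0 : ∀ n, 0 ≤ F n) (h1 : ∀ n, F n ≤ 1) (hF : Antitone F)
    (T : Finset (HV D)) {U U' : Set (HV D)} (hU : U ⊆ U') : EE w F T U' ≤ EE w F T U := by
  refine integral_mono (RecI_int w h0 h1 T U') (RecI_int w h0 h1 T U) fun c => hF ?_
  exact Set.ncard_le_ncard (cl_mono subset_rfl hU c) (T.finite_toSet.subset (cl_subset _ _ c))

theorem EE_mono_set (w : Set.Ioo (0 : ℝ) 1) {F : ℕ → ℝ} (h0 : ∀ n, 0 ≤ F n) (h1 : ∀ n, F n ≤ 1) (hF : Monotone F)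
    (T : Finset (HV D)) {U U' : Set (HV D)} (hU : U ⊆ U') : EE w F T U ≤ EE w F T U' := by
  refine integral_mono (RecI_int w h0 h1 T U) (RecI_int w h0 h1 T U') fun c => hF ?_
  exact Set.ncard_le_ncard (cl_mono subset_rfl hU c) (T.finite_toSet.subset (cl_subset _ _ c))

theorem EE_rec (w : Set.Ioo (0 : ℝ) 1) {F : ℕ → ℝ} (h0 : ∀ n, 0 ≤ F n) (h1 : ∀ n, F n ≤ 1) {T : Finset (HV D)}
    {U : Set (HV D)} {x : HV D} (hx : x ∈ T) (hU : x ∈ U) :
    EE w F T U = ∑' l : HRun D, rW (1 - (w : ℝ)) l * EE w (fun n => F (n + 1)) (T.erase x) (U ∪ rch x l) := by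
  have hw0 : (0 : ℝ) ≤ 1 - (w : ℝ) := by linarith [w.2.2]
  have hw1 : 1 - (w : ℝ) < 1 := by linarith [w.2.1]
  have hco : (↑(T.erase x) : Set (HV D)) = (↑T : Set (HV D)) \ {x} := Finset.coe_erase x T
  have hG0 : ∀ n, 0 ≤ (fun n => F (n + 1)) n := fun n => h0 (n + 1)
  have hnc : ∀ c : HConf D, (cl (↑T) U c).ncard =
      (cl (↑(T.erase x)) (U ∪ rch x (c x)) c).ncard + 1 := by
    intro c
    rw [cl_rec (T := (↑T : Set (HV D))) (Finset.mem_coe.2 hx) hU c, hco]
    refine Set.ncard_insert_of_notMem (fun h => ?_) ?_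
    · exact (cl_subset _ _ c h).2 rfl
    · exact (T.finite_toSet.subset Set.sdiff_subset).subset (cl_subset _ _ c)
  have hpt : ∀ c : HConf D, ENNReal.ofReal (F (cl (↑T) U c).ncard) =
      ∑' l : HRun D, TR.ind (c x = l) *
        ENNReal.ofReal (F ((cl (↑(T.erase x)) (U ∪ rch x l) c).ncard + 1)) := by
    intro c
    rw [tsum_eq_single (c x), TR.ind_true rfl, one_mul, hnc c]
    intro l hl
    rw [TR.ind_false fun h => hl h.symm, zero_mul]
  have hmi : ∀ l : HRun D, Measurable fun c : HConf D => TR.ind (c x = l) := by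
    intro l
    refine TR.measurable_ind ?_
    exact (measurable_of_countable fun a : HRun D => a = l).comp (measurable_pi_apply x)
  have hmg : ∀ l : HRun D, Measurable fun c : HConf D =>
      ENNReal.ofReal (F ((cl (↑(T.erase x)) (U ∪ rch x l) c).ncard + 1)) := fun l =>
    (RecI_meas (fun n => F (n + 1)) (T.erase x) (U ∪ rch x l)).ennreal_ofReal
  have hsum : ∫⁻ c, ENNReal.ofReal (F (cl (↑T) U c).ncard) ∂HQ w D =
      ∑' l : HRun D, ENNReal.ofReal (hW w D l) *
        ∫⁻ c, ENNReal.ofReal (F ((cl (↑(T.erase x)) (U ∪ rch x l) c).ncard + 1)) ∂HQ w D := by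
    have hm : ∀ l : HRun D, AEMeasurable (fun c : HConf D => TR.ind (c x = l) *
        ENNReal.ofReal (F ((cl (↑(T.erase x)) (U ∪ rch x l) c).ncard + 1))) (HQ w D) := fun l =>
      ((hmi l).mul (hmg l)).aemeasurable
    rw [lintegral_congr hpt, lintegral_tsum hm]
    refine tsum_congr fun l => ?_
    have h2 := TR.lintegral_mul_of_disj (hLaw w D) ({x} : Set (HV D)) (hmi l) (hmg l) (by
        intro c c' hc
        rw [hc x rfl]) (by
        intro c c' hc
        have h3 : cl (↑(T.erase x)) (U ∪ rch x l) c = cl (↑(T.erase x)) (U ∪ rch x l) c' := by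
          refine cl_congr fun y hy => hc y fun h => ?_
          rw [Set.mem_singleton_iff.1 h, hco] at hy
          exact hy.2 rfl
        rw [h3])
    refine h2.trans ?_
    congr 1
    rw [TR.lintegral_coord (hLaw w D) x (g := fun a : HRun D => TR.ind (a = l))
      (TR.measurable_ind (measurable_of_countable _)),
      TR.lintegral_ind _ (measurable_of_countable _)]
    rw [← hLaw_one w D l]
    rfl
  have hle : ∀ l : HRun D,
      ∫⁻ c, ENNReal.ofReal (F ((cl (↑(T.erase x)) (U ∪ rch x l) c).ncard + 1)) ∂HQ w D ≤ 1 := by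
    intro l
    calc ∫⁻ c, ENNReal.ofReal (F ((cl (↑(T.erase x)) (U ∪ rch x l) c).ncard + 1)) ∂HQ w D
        ≤ ∫⁻ _c : HConf D, 1 ∂HQ w D := lintegral_mono fun c => ENNReal.ofReal_le_one.2 (h1 _)
      _ = 1 := by rw [lintegral_const, measure_univ, mul_one]
  rw [RecI_EE w h0 T U, hsum, ENNReal.tsum_toReal_eq fun l =>
    ENNReal.mul_ne_top ENNReal.ofReal_ne_top (ne_top_of_le_ne_top ENNReal.one_ne_top (hle l))]
  refine tsum_congr fun l => ?_
  rw [ENNReal.toReal_mul, ENNReal.toReal_ofReal (by rw [hW_eq]; exact rW_nonneg hw0 hw1 l), hW_eq,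
    RecI_EE w hG0 (T.erase x) (U ∪ rch x l)]

end FDr.SH
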