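import Pool.Agent.Lib.MP_e029a2_pr.SH.Kap

/-!
# Sharpness (job SP)

* `tail_mono`: `main_fin` with `h = 0`, `κ = 1` (`X 0 = 1`, `EE w 1 T U = 1`; the hypothesis is `(1-w') w ≤ (1-w) w`), `tail_eq` (`iSup_mono`).
* `theta_anti`: `{infinite} = ⋂ m, {m ≤ encard}`, decreasing, `tendsto_measure_iInter`, or: `theta w D = ⨅ m, ..`.
* `exp_decay`: `p = 1 - w₀ > p' = 1 - w`.  As `κ → 1`: `p κ (1-p)/(1-pκ) → p > p'`, so by `kap_tendsto` there is `h > 0` with
  `κ = kap w₀ D h > 0` and `p' (1 - p κ) ≤ p κ (1-p)` (continuity of both sides in `κ` at `1`: strict inequality `p' (1-p) < p (1-p)`).  `main_fin` (with `w := w₀`, `w' := w`,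
  `hκ` from `kap_le`): `EE w (Ige m) T {0} * κ ≤ EE w (Ige m) T {0} * EE w₀ (X h) T {0} ≤ EE w₀ (Ige m * X h) T {0} ≤ exp (-(h m))`
  (`EE_mono` to the constant function: `Ige m n * X h n ≤ exp (-(h m))`), so every finite probability is `≤ κ⁻¹ exp (-(h m))`, and `tail_eq`.
* `mean_ne_top`: `mean_eq` and the geometric series.
-/

set_option autoImplicit false

namespace FDr.SH

open MeasureTheory ProbabilityTheory
open scoped ENNReal Topology

variable {D : ℕ} [NeZero D]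

private theorem sharp_const (w : Set.Ioo (0 : ℝ) 1) (a : ℝ) (T : Finset (HV D)) (U : Set (HV D)) :
    EE w (fun _ => a) T U = a := by
  unfold EE
  rw [integral_const, probReal_univ, one_smul]

private theorem sharp_X0 : X 0 = fun _ => (1 : ℝ) := by
  funext n
  unfold X
  rw [zero_mul, neg_zero, Real.exp_zero]

theorem tail_mono {w w' : Set.Ioo (0 : ℝ) 1} (h : w ≤ w') (m : ℕ) :
    HQ w' D {c | (m : ℕ∞) ≤ (cl Set.univ {0} c).encard} ≤ HQ w D {c | (m : ℕ∞) ≤ (cl Set.univ {0} c).encard} := by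
  rw [tail_eq, tail_eq]
  refine iSup_mono fun T => ENNReal.ofReal_le_ofReal ?_
  have h1 : (w : ℝ) ≤ w' := h
  have h2 : ∀ (T : Finset (HV D)) (z : HV D), (1 : ℝ) ≤ EE w (X 0) T {z} := by
    intro T z
    rw [sharp_X0, sharp_const]
  have h3 := main_fin (D := D) w w' (h := 0) (κ := 1) le_rfl zero_le_one le_rfl h2
    (by nlinarith [w.2.1]) m T {0}
  rw [sharp_X0, sharp_const, mul_one] at h3
  have h4 : (fun n => Ige m n * (fun _ => (1 : ℝ)) n) = Ige m := by
    funext n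
    show Ige m n * 1 = Ige m n
    rw [mul_one]
  rw [h4] at h3
  exact h3

private theorem sharp_meas (m : ℕ) :
    MeasurableSet {c : HConf D | (m : ℕ∞) ≤ (cl Set.univ {0} c).encard} := by
  have h1 : {c : HConf D | (m : ℕ∞) ≤ (cl Set.univ {0} c).encard} =
      ⋃ s : Finset (HV D), ⋃ (_ : s.card = m), ⋂ y ∈ s, {c : HConf D | Cl Set.univ {0} c y} := by
    ext c
    simp only [Set.mem_ofPred_eq, Set.mem_iUnion, Set.mem_iInter, exists_prop]
    constructor
    · intro hc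
      obtain ⟨t, ht, hte⟩ := Set.exists_subset_encard_eq hc
      have hfin : t.Finite := Set.finite_of_encard_eq_coe hte
      refine ⟨hfin.toFinset, ?_, fun y hy => ht (hfin.mem_toFinset.1 hy)⟩
      rw [hfin.encard_eq_coe_toFinset_card] at hte
      exact_mod_cast hte
    · rintro ⟨s, hs, hy⟩
      have h2 : (s : Set (HV D)) ⊆ cl Set.univ {0} c := fun y hys => hy y hys
      have h3 := Set.encard_le_encard h2
      rw [Set.encard_coe_eq_coe_finsetCard, hs] at h3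
      exact h3
  rw [h1]
  refine MeasurableSet.iUnion fun s => MeasurableSet.iUnion fun _ => ?_
  exact Finset.measurableSet_biInter s fun y _ => meas_cl _ _ _

private theorem sharp_theta (w : Set.Ioo (0 : ℝ) 1) :
    theta w D = ⨅ m : ℕ, HQ w D {c | (m : ℕ∞) ≤ (cl Set.univ {0} c).encard} := by
  have h1 : {c : HConf D | (cl Set.univ {0} c).Infinite} =
      ⋂ m : ℕ, {c | (m : ℕ∞) ≤ (cl Set.univ {0} c).encard} := by
    ext c
    simp only [Set.mem_ofPred_eq, Set.mem_iInter]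
    constructor
    · intro hc m
      rw [hc.encard_eq]
      exact le_top
    · intro hc hfin
      have h2 := hc ((cl Set.univ {0} c).ncard + 1)
      rw [← hfin.cast_ncard_eq] at h2
      have h3 : (cl Set.univ {0} c).ncard + 1 ≤ (cl Set.univ {0} c).ncard := by exact_mod_cast h2
      omega
  unfold theta
  rw [h1]
  refine Antitone.measure_iInter ?_ (fun m => (sharp_meas m).nullMeasurableSet) ⟨0, measure_ne_top _ _⟩
  intro m n hmn c hc
  have h2 : (n : ℕ∞) ≤ (cl Set.univ {0} c).encard := hc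
  have h3 : (m : ℕ∞) ≤ n := by exact_mod_cast hmn
  exact h3.trans h2

theorem theta_anti {w w' : Set.Ioo (0 : ℝ) 1} (h : w ≤ w') : theta w' D ≤ theta w D := by
  rw [sharp_theta, sharp_theta]
  exact iInf_mono fun m => tail_mono h m

/-- **Exponential decay in the whole subcritical phase.** -/
theorem exp_decay {w₀ w : Set.Ioo (0 : ℝ) 1} (h0 : theta w₀ D = 0) (h : w₀ < w) :
    ∃ b C : ℝ, 0 < b ∧ 0 < C ∧ ∀ m : ℕ,
      HQ w D {c | (m : ℕ∞) ≤ (cl Set.univ {0} c).encard} ≤ ENNReal.ofReal (C * Real.exp (-(b * m))) := by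
  have hw : (w₀ : ℝ) < w := h
  have hw0 : (0 : ℝ) < w₀ := w₀.2.1
  have hw1 : (w : ℝ) < 1 := w.2.2
  have ht := kap_tendsto w₀ h0
  have hc : Filter.Tendsto (fun κ : ℝ => (1 - (w₀ : ℝ)) * (κ * w₀) -
      (1 - (w : ℝ)) * (1 - (1 - (w₀ : ℝ)) * κ)) (𝓝 1)
      (𝓝 ((1 - (w₀ : ℝ)) * (1 * w₀) - (1 - (w : ℝ)) * (1 - (1 - (w₀ : ℝ)) * 1))) := by
    have h1 : Continuous (fun κ : ℝ => (1 - (w₀ : ℝ)) * (κ * w₀) -
      (1 - (w : ℝ)) * (1 - (1 - (w₀ : ℝ)) * κ)) := by fun_prop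
    exact h1.tendsto 1
  have hpos : (0 : ℝ) < (1 - (w₀ : ℝ)) * (1 * w₀) - (1 - (w : ℝ)) * (1 - (1 - (w₀ : ℝ)) * 1) := by
    have h1 : (0 : ℝ) < (w - w₀) * w₀ := mul_pos (by linarith) hw0
    nlinarith
  have e1 : ∀ᶠ t in 𝓝[>] (0 : ℝ), (0 : ℝ) < (1 - (w₀ : ℝ)) * (kap w₀ D t * w₀) -
      (1 - (w : ℝ)) * (1 - (1 - (w₀ : ℝ)) * kap w₀ D t) :=
    (hc.comp ht).eventually (lt_mem_nhds hpos)
  have e2 : ∀ᶠ t in 𝓝[>] (0 : ℝ), (0 : ℝ) < kap w₀ D t := ht.eventually (lt_mem_nhds zero_lt_one)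
  have e3 : ∀ᶠ t in 𝓝[>] (0 : ℝ), t ∈ Set.Ioi (0 : ℝ) := self_mem_nhdsWithin
  obtain ⟨b, hb1, hb2, hb3⟩ := (e1.and (e2.and e3)).exists
  have hb : (0 : ℝ) < b := hb3
  refine ⟨b, (kap w₀ D b)⁻¹, hb, inv_pos.2 hb2, fun m => ?_⟩
  rw [tail_eq]
  refine iSup_le fun T => ENNReal.ofReal_le_ofReal ?_
  have h1 := main_fin (D := D) w₀ w hb.le hb2.le (kap_le_one w₀ hb.le)
    (fun T z => kap_le w₀ hb.le T z) (by linarith) m T {0}
  have hI0 : ∀ n, 0 ≤ Ige m n := by
    intro n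
    unfold Ige
    split_ifs
    · exact zero_le_one
    · exact le_rfl
  have hX0 : ∀ n, 0 ≤ X b n := fun n => (Real.exp_pos _).le
  have h2 : EE w₀ (fun n => Ige m n * X b n) T {0} ≤ Real.exp (-(b * m)) := by
    have h3 : EE w₀ (fun n => Ige m n * X b n) T {0} ≤ EE w₀ (fun _ => Real.exp (-(b * m))) T {0} := by
      refine EE_mono w₀ (fun n => mul_nonneg (hI0 n) (hX0 n)) (fun n => ?_) (fun n => ?_) T {0}
      · unfold Ige
        split_ifs with hmn
        · rw [one_mul]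
          unfold X
          refine Real.exp_le_exp.2 (neg_le_neg ?_)
          exact mul_le_mul_of_nonneg_left (by exact_mod_cast hmn) hb.le
        · rw [zero_mul]
          exact (Real.exp_pos _).le
      · rw [← Real.exp_zero]
        refine Real.exp_le_exp.2 ?_
        have := mul_nonneg hb.le (Nat.cast_nonneg (α := ℝ) m)
        linarith
    rw [sharp_const] at h3
    exact h3
  have h4 : EE w (Ige m) T {0} * kap w₀ D b ≤ EE w (Ige m) T {0} * EE w₀ (X b) T {0} :=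
    mul_le_mul_of_nonneg_left (kap_le w₀ hb.le T 0) (EE_nonneg w hI0 T {0})
  have h5 : EE w (Ige m) T {0} * kap w₀ D b ≤ Real.exp (-(b * m)) := (h4.trans h1).trans h2
  rw [inv_mul_eq_div, le_div_iff₀ hb2]
  exact h5

/-- **The mean number of activated frogs is finite in the whole subcritical phase.** -/
theorem mean_ne_top {w₀ w : Set.Ioo (0 : ℝ) 1} (h0 : theta w₀ D = 0) (h : w₀ < w) :
    ∑' y : HV D, HQ w D {c | Cl Set.univ {0} c y} ≠ ⊤ := by
  rw [mean_eq]
  obtain ⟨b, C, hb, hC, hd⟩ := exp_decay h0 h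
  have h1 : Summable fun m : ℕ => C * Real.exp (-(b * ((m + 1 : ℕ) : ℝ))) := by
    refine Summable.mul_left C ?_
    have h2 : (fun m : ℕ => Real.exp (-(b * ((m + 1 : ℕ) : ℝ)))) =
        fun m : ℕ => Real.exp (-b) * Real.exp (-b) ^ m := by
      funext m
      rw [← Real.exp_nat_mul, ← Real.exp_add]
      congr 1
      push_cast
      ring
    rw [h2]
    refine Summable.mul_left _ (summable_geometric_of_lt_one (Real.exp_pos _).le ?_)
    rw [Real.exp_lt_one_iff]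
    linarith
  refine ne_top_of_le_ne_top h1.tsum_ofReal_ne_top ?_
  exact ENNReal.tsum_le_tsum fun m => hd (m + 1)

end FDr.SH
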